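import Pool.Agent.P.MP_f8f34d_lc.Mod

/-! Every model gives a truth table. -/

namespace Pool.Agent.MinDeg

open FirstOrder FirstOrder.Language

variable {M : Type} [LA.Structure M]

theorem exists_least (h : LNP M) (q : Fm) (l : List M) :
    ∃ v, Least (fun b => Sat q (l ++ [b])) v := by
  by_cases hq : ∀ b, Sat q (l ++ [b])
  · exact ⟨zM, Or.inr ⟨hq, rfl⟩⟩
  · obtain ⟨a, ha⟩ := h q l (not_forall.1 hq)
    exact ⟨a, Or.inl ha⟩

noncomputable def dec (n : ℕ) : Fm := (enc_surj n).choose

theorem dec_enc (p : Fm) : dec p.enc = p := enc_inj (enc_surj p.enc).choose_spec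

theorem exists_val (h : LNP M) : ∃ j : ℕ → M,
    ∀ (q : Fm) l, Least (fun b => Sat q (l.map j ++ [b])) (j (ix q.enc l)) := by
  let step : List M → M := fun L => (exists_least h (dec L.length.unpair.1)
    ((Denumerable.ofNat (List ℕ) L.length.unpair.2).map fun i => L.getD i zM)).choose
  refine ⟨srec step, fun q l => ?_⟩
  have h1 := (exists_least h (dec ((List.range (ix q.enc l)).map (srec step)).length.unpair.1)
    ((Denumerable.ofNat (List ℕ) ((List.range (ix q.enc l)).map (srec step)).length.unpair.2).map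
      fun i => ((List.range (ix q.enc l)).map (srec step)).getD i zM)).choose_spec
  have e1 : dec ((List.range (ix q.enc l)).map (srec step)).length.unpair.1 = q := by
    simp [ix, dec_enc]
  have e2 : ((Denumerable.ofNat (List ℕ)
      ((List.range (ix q.enc l)).map (srec step)).length.unpair.2).map
      fun i => ((List.range (ix q.enc l)).map (srec step)).getD i zM) = l.map (srec step) := by
    have : ((List.range (ix q.enc l)).map (srec step)).length.unpair.2 = Encodable.encode l := by
      simp [ix]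
    rw [this, Denumerable.ofNat_encode]
    exact List.map_congr_left fun a ha => getD_range_map _ _ (lt_ix ha)
  have h2 : Least (fun b => Sat (dec ((List.range (ix q.enc l)).map (srec step)).length.unpair.1)
      (((Denumerable.ofNat (List ℕ)
      ((List.range (ix q.enc l)).map (srec step)).length.unpair.2).map
      fun i => ((List.range (ix q.enc l)).map (srec step)).getD i zM) ++ [b]))
      (step ((List.range (ix q.enc l)).map (srec step))) := h1
  rw [e1, e2, ← srec_eq step] at h2
  exact h2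

theorem exists_tab (hq : QA M) (h : LNP M) :
    ∃ x, Tab x ∧ ∀ p : Fm, x (ix p.enc []) = true ↔ Sat (M := M) p [] := by
  classical
  obtain ⟨j, hj⟩ := exists_val h
  let x : CS := fun n => decide (Sat (dec n.unpair.1)
    ((Denumerable.ofNat (List ℕ) n.unpair.2).map j))
  have hx : ∀ (p : Fm) l, x (ix p.enc l) = true ↔ Sat p (l.map j) := by
    intro p l
    simp only [x, ix, Nat.unpair_pair, dec_enc, Denumerable.ofNat_encode, decide_eq_true_eq]
  have hE : ∀ a b, x (eqI a b) = true ↔ j a = j b := fun a b => by rw [eqI, hx]; simp [fE]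
  have hL : ∀ a b, x (ltI a b) = true ↔ lM (j a) (j b) := fun a b => by rw [ltI, hx]; simp [fL]
  have j0 : j 0 = zM := by
    rcases hj .fal [] with ⟨-, h2⟩ | ⟨-, h2⟩
    · rcases hq.pred (j 0) with h0 | ⟨y, hy⟩
      · exact h0
      · exact (h2 y (by
          show lM y (j 0)
          rw [hy]; exact (hq.a8 y y).2 (Or.inr rfl))).elim
    · exact h2
  have j1 : j oneN = oM := by
    rcases hj fO [] with ⟨h1, -⟩ | ⟨h1, -⟩
    · simpa [fO, oneN] using h1
    · simpa [fO] using h1 oM
  have jA : ∀ a b, j (addN a b) = aM (j a) (j b) := by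
    intro a b
    rcases hj fA [a, b] with ⟨h1, -⟩ | ⟨h1, -⟩
    · simpa [fA, addN] using h1
    · simpa [fA] using h1 (aM (j a) (j b))
  have jM : ∀ a b, j (mulN a b) = mM (j a) (j b) := by
    intro a b
    rcases hj fM [a, b] with ⟨h1, -⟩ | ⟨h1, -⟩
    · simpa [fM, mulN] using h1
    · simpa [fM] using h1 (mM (j a) (j b))
  have hev : ∀ l t, ev (l.map j) t = j (tv l (code t)) := by
    intro l t
    induction t using term_ind with
    | hv a => rw [tv_var, ev_var, ← j0]; exact List.getD_map l 0 j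
    | h0 => rw [tv_zero, ev_zero, j0]
    | h1 => rw [tv_one, ev_one, j1]
    | ha s t i k => rw [tv_add, ev_add, i, k, jA]
    | hm s t i k => rw [tv_mul, ev_mul, i, k, jM]
  have hall : ∀ (p : Fm) l, x (ix (4 * p.enc + 4) l) = true ↔ ∀ b, Sat p (l.map j ++ [b]) :=
    fun p l => hx (.all p) l
  have hsn : ∀ (p : Fm) l a, x (ix p.enc (l ++ [a])) = true ↔ Sat p (l.map j ++ [j a]) := by
    intro p l a; rw [hx, List.map_append, List.map_singleton]
  refine ⟨x, ⟨fun l => ?_, fun s t l => ?_, fun s t l => ?_, fun p q l => ?_, fun p a l => ?_,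
    fun p l => ?_, fun p a l => ?_, fun p l => ?_, fun a => (hE a a).2 rfl, fun a b c => ?_,
    fun a b c d => ?_, fun a b c d => ?_, fun a b c => ?_, fun a b c => ?_, fun n hn => ?_⟩,
    fun p => hx p []⟩
  · exact Bool.eq_false_iff.2 fun k => (hx .fal l).1 k
  · obtain ⟨s, rfl⟩ := code_surj s
    obtain ⟨t, rfl⟩ := code_surj t
    rw [Bool.eq_iff_iff, hE, ← hev, ← hev]
    exact hx (.eq s t) l
  · obtain ⟨s, rfl⟩ := code_surj s
    obtain ⟨t, rfl⟩ := code_surj t
    rw [Bool.eq_iff_iff, hL, ← hev, ← hev]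
    exact hx (.lt s t) l
  · obtain ⟨p, rfl⟩ := enc_surj p
    obtain ⟨q, rfl⟩ := enc_surj q
    rw [hx, hx]
    exact hx (.imp p q) l
  · obtain ⟨p, rfl⟩ := enc_surj p
    rw [hall, hsn]
    exact fun k => k _
  · obtain ⟨p, rfl⟩ := enc_surj p
    rw [hall, hsn]
    intro k
    rcases hj p l with ⟨h1, -⟩ | ⟨h1, -⟩
    · exact absurd k h1
    · exact h1
  · obtain ⟨p, rfl⟩ := enc_surj p
    rw [hL, hsn]
    intro k
    rcases hj p l with ⟨-, h1⟩ | ⟨h1, -⟩
    · exact h1 _ k
    · exact h1 _
  · obtain ⟨p, rfl⟩ := enc_surj p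
    rw [hall, hE, j0]
    intro k
    rcases hj p l with ⟨h1, -⟩ | ⟨-, h1⟩
    · exact absurd (k _) h1
    · exact h1
  · rw [hE, hE, hE]; exact fun h1 h2 => h1.symm.trans h2
  · rw [hE, hE, hE, jA, jA]; intro h1 h2; rw [h1, h2]
  · rw [hE, hE, hE, jM, jM]; intro h1 h2; rw [h1, h2]
  · rw [hE, hL, hL]; intro h1 h2; rwa [← h1]
  · rw [hE, hL, hL]; intro h1 h2; rwa [← h1]
  · obtain ⟨p, hp, rfl⟩ := List.mem_map.1 hn
    exact (hx p []).2 ((sat_gam M).2 hq p hp)

end Pool.Agent.MinDeg
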