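import Pool.Agent.P.MP_f8f34d_lc.Sig

/-! Baire category for the topology generated by the effectively closed subsets of Cantor
space. -/

namespace Pool.Agent.MinDeg

open Pool.Agent.Lib.ComputableProp Set TopologicalSpace
open scoped Computability

/-- effectively closed sets -/
def Pi1 (Q : Set CS) : Prop := Sig (fun x (_ : Unit) => x ∉ Q)

namespace Pi1

theorem of_sig {α : Type} [Primcodable α] {S : CS → α → Prop} (h : Sig S) :
    Pi1 {x | ∀ a, ¬ S x a} := by
  have h1 : Sig (fun x (z : Unit × α) => S x z.2) := h.comp Computable.snd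
  refine (Sig.ex (P := fun x (_ : Unit) a => S x a) h1).of_iff fun x _ => ?_
  simp

theorem inter {Q Q' : Set CS} (h : Pi1 Q) (h' : Pi1 Q') : Pi1 (Q ∩ Q') := by
  refine (Sig.or h h').of_iff fun x _ => ?_
  rw [mem_inter_iff, not_and_or]

theorem bit (k : ℕ) (b : Bool) : Pi1 {x | x k = b} := by
  refine (Sig.bit (f := fun _ : Unit => k) (g := fun _ => !b) (Computable.const _)
    (Computable.const _)).of_iff fun x _ => ?_
  simp only [mem_ofPred_eq]
  cases x k <;> cases b <;> simp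

theorem univ : Pi1 Set.univ := by
  refine (Sig.of_re (Q := fun _ : Unit => (0 : ℕ) < 0)
    (RE.lt (Computable.const _) (Computable.const _))).of_iff fun x _ => ?_
  simp

theorem isClosed {Q : Set CS} (h : Pi1 Q) : IsClosed Q :=
  ⟨Sig.isOpen h ()⟩

theorem preimage {Q : Set CS} (h : Pi1 Q) {g : ℕ → ℕ} (hg : Computable g) :
    Pi1 {z | (fun i => z (g i)) ∈ Q} :=
  Sig.reindex h hg

theorem image {Q : Set CS} (h : Pi1 Q) {g : ℕ → ℕ} (hg : Computable g)
    (hm : Function.Injective g) : Pi1 ((fun (z : CS) i => z (g i)) '' Q) := by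
  refine (Sig.fibre h hg hm).of_iff fun x _ => ?_
  constructor
  · rintro hh ⟨z, hz, rfl⟩
    exact hh z (fun _ => rfl) hz
  · intro hh z hz hQ
    exact hh ⟨z, hQ, funext hz⟩

theorem countable : Set.Countable {Q : Set CS | Pi1 Q} := by
  refine ((countable_sig (α := Unit)).image fun P => {x | ¬ P x ()}).mono fun Q hQ => ?_
  exact ⟨fun x _ => x ∉ Q, hQ, by simp⟩

end Pi1

/-- Cantor space with the topology generated by the effectively closed sets -/
def CT : Type := CS

instance : TopologicalSpace CT := generateFrom {Q : Set CS | Pi1 Q}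

instance : MeasurableSpace CT := borel CT

instance : BorelSpace CT := ⟨rfl⟩

theorem basisCT : IsTopologicalBasis (α := CT) {Q : Set CS | Pi1 Q} where
  exists_subset_inter := fun _ h₁ _ h₂ _ hx => ⟨_, Pi1.inter h₁ h₂, hx, Subset.rfl⟩
  sUnion_eq := sUnion_eq_univ_iff.2 fun _ => ⟨_, Pi1.univ, trivial⟩
  eq_generateFrom := rfl

theorem Pi1.isOpenCT {Q : Set CS} (h : Pi1 Q) : IsOpen (X := CT) Q := basisCT.isOpen h

/-- the identity map to the product topology -/
def val (x : CT) : CS := x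

theorem continuous_val : Continuous val := by
  refine continuous_pi fun i => continuous_discrete_rng.2 fun b => ?_
  exact (Pi1.bit i b).isOpenCT

instance : BaireSpace CT := by
  refine ⟨fun f ho hd => ?_⟩
  refine basisCT.dense_iff.2 fun Q hQ hne => ?_
  have step : ∀ (n : ℕ) (A : {A : Set CS // Pi1 A ∧ A.Nonempty}),
      ∃ B : {A : Set CS // Pi1 A ∧ A.Nonempty}, B.1 ⊆ A.1 ∧ B.1 ⊆ f n := by
    intro n A
    obtain ⟨x, hx⟩ := (hd n).inter_open_nonempty _ A.2.1.isOpenCT A.2.2
    obtain ⟨B, hB, hxB, hsub⟩ := basisCT.exists_subset_of_mem_open hx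
      (A.2.1.isOpenCT.inter (ho n))
    exact ⟨⟨B, hB, x, hxB⟩, fun y hy => (hsub hy).1, fun y hy => (hsub hy).2⟩
  choose F hF1 hF2 using step
  let K : ℕ → {A : Set CS // Pi1 A ∧ A.Nonempty} := fun n => Nat.rec ⟨Q, hQ, hne⟩ F n
  obtain ⟨x, hx⟩ := IsCompact.nonempty_iInter_of_sequence_nonempty_isCompact_isClosed
    (fun n => (K n).1) (fun n => hF1 n (K n)) (fun n => (K n).2.2)
    (K 0).2.1.isClosed.isCompact (fun n => (K n).2.1.isClosed)
  rw [mem_iInter] at hx
  exact ⟨x, hx 0, mem_iInter.2 fun n => hF2 n (K n) (hx (n + 1))⟩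

theorem Pi1.not_meagre {Q : Set CS} (h : Pi1 Q) (hne : Q.Nonempty) : ¬ IsMeagre (X := CT) Q :=
  not_isMeagre_of_isOpen h.isOpenCT hne

/-- reindexing -/
def rx (g : ℕ → ℕ) (z : CT) : CT := fun i => z (g i)

theorem meagre_rx {g : ℕ → ℕ} (hg : Computable g) (hm : Function.Injective g) {s : Set CT}
    (h : IsMeagre s) : IsMeagre (rx g ⁻¹' s) := by
  refine h.preimage_of_isOpenMap ?_ ?_
  · exact basisCT.continuous_iff.2 fun Q hQ => (Pi1.preimage hQ hg).isOpenCT
  · exact basisCT.isOpenMap_iff.2 fun Q hQ => (Pi1.image hQ hg hm).isOpenCT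

/-- the join of two points -/
def jn (x y : CS) : CS := fun i => if i % 2 = 0 then x (i / 2) else y (i / 2)

theorem jn_ev (x y : CS) : (fun i => jn x y (2 * i)) = x := by
  funext i
  simp [jn]

theorem jn_od (x y : CS) : (fun i => jn x y (2 * i + 1)) = y := by
  funext i
  have h1 : (2 * i + 1) % 2 ≠ 0 := by omega
  have h2 : (2 * i + 1) / 2 = i := by omega
  simp only [jn, if_neg h1, h2]

theorem c_ev : Computable (fun i : ℕ => 2 * i) := by fun_prop
theorem c_od : Computable (fun i : ℕ => 2 * i + 1) := by fun_prop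
theorem i_ev : Function.Injective (fun i : ℕ => 2 * i) := fun a b h => by
  simp only at h; omega
theorem i_od : Function.Injective (fun i : ℕ => 2 * i + 1) := fun a b h => by
  simp only at h; omega

/-- the only point of a class that is effectively closed relative to `y` is recursive in `y` -/
theorem uniq {W : Set CS} (hW : Pi1 W) {x y : CS} (hxy : jn x y ∈ W)
    (h : ∀ z ∈ W, (∀ i, z (2 * i + 1) = y i) → ∀ k, z (2 * k) = x k) : hat x ≤ᵀ hat y := by
  have h1 : Sig (fun (z : CS) (a : ℕ × ℕ) => z ∉ W ∨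
      ∃ b : Bool, z (2 * a.1) = b ∧ a.2 = cond b 1 0) := by
    refine Sig.or (Sig.comp (f := fun _ : ℕ × ℕ => ()) hW (Computable.const _)) (Sig.ex (Sig.and
      (Sig.bit (f := fun w : (ℕ × ℕ) × Bool => 2 * w.1.1) (by fun_prop) (by fun_prop))
      (Sig.of_re (RE.eq (by fun_prop) (by fun_prop)))))
  have h2 := Sig.tr (y := y) (f := fun k => cond (x k) 1 0) (h1.fibre c_od i_od) ?_
  · exact RecursiveIn.iff_nat.2 h2
  intro k v
  constructor
  · intro hh
    rcases hh (jn x y) (fun i => congrFun (jn_od x y) i) with h3 | ⟨b, h3, h4⟩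
    · exact absurd hxy h3
    · rw [congrFun (jn_ev x y) k] at h3
      rw [h3]; exact h4
  · intro hv z hz
    by_cases hz' : z ∈ W
    · exact Or.inr ⟨x k, h z hz' hz k, hv⟩
    · exact Or.inl hz'

theorem computable_of_singleton {Q : Set CS} (hQ : Pi1 Q) {x : CS} (hx : x ∈ Q)
    (h : ∀ z ∈ Q, z = x) : Computable x := by
  have h1 : hat x ≤ᵀ hat (fun _ => false) := by
    refine uniq (Pi1.preimage hQ c_ev) ?_ fun z hz _ k => congrFun (h _ hz) k
    show (fun i => jn x (fun _ => false) (2 * i)) ∈ Q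
    rw [jn_ev]; exact hx
  have h2 : Computable (fun n => cond (x n) 1 0 : ℕ → ℕ) :=
    TuringReducible.partrec_of_const (s := Part.some 0) h1
  have h3 : Computable (fun v : ℕ => eqb v 1) := by fun_prop
  refine (h3.comp h2).of_eq fun n => ?_
  cases x n <;> simp [eqb]

theorem meagre_singleton {x : CT} (hx : ¬ Computable (val x)) : IsMeagre {x} := by
  refine IsNowhereDense.isMeagre ?_
  have hc : IsClosed ({x} : Set CT) := (isClosed_singleton (x := val x)).preimage continuous_val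
  rw [hc.isNowhereDense_iff, eq_empty_iff_forall_notMem]
  intro w hw
  obtain ⟨Q, hQ, hwQ, hsub⟩ := basisCT.exists_subset_of_mem_open hw isOpen_interior
  have hsub' : ∀ z ∈ Q, z = x := fun z hz =>
    mem_singleton_iff.1 (interior_subset (s := {x}) (hsub hz))
  obtain rfl : w = x := hsub' _ hwQ
  exact hx (computable_of_singleton hQ hwQ hsub')

open Classical in
/-- the point computed by `S` from `x` -/
noncomputable def yS (S : CS → ℕ × Bool → Prop) (x : CS) : CS := fun m => decide (S x (m, true))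

/-- points at which `S` is single valued and total, with value in the relation `θ` -/
def GS (P : CS → Unit → Prop) (θ : CS → CS → Prop) (S : CS → ℕ × Bool → Prop) : Set CS :=
  {x | ¬ P x () ∧ (∀ m, ¬ (S x (m, true) ∧ S x (m, false))) ∧ (∀ m, ∃ b, S x (m, b)) ∧
    θ x (yS S x)}

theorem yS_eq {S : CS → ℕ × Bool → Prop} {x : CS}
    (h : ∀ m, ¬ (S x (m, true) ∧ S x (m, false))) {m : ℕ} {b : Bool} (hb : S x (m, b)) :
    yS S x m = b := by
  classical
  cases b
  · have : ¬ S x (m, true) := fun h' => h m ⟨h', hb⟩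
    simp [yS, this]
  · simp [yS, hb]

theorem key {P : CS → Unit → Prop} {θ : CS → CS → Prop}
    (hinj : ∀ x x' y, ¬ P x () → ¬ P x' () → θ x y → θ x' y → x = x')
    {S : CS → ℕ × Bool → Prop} (hS : Sig S) {Q : Set CS} (hQ : Pi1 Q)
    (hm : IsMeagre (X := CT) (Q \ GS P θ S)) {x : CS} (hxQ : x ∈ Q) (hxG : x ∈ GS P θ S) :
    hat x ≤ᵀ hat (yS S x) := by
  have hev : Sig (fun (z : CS) a => S (fun i => z (2 * i)) a) := hS.reindex c_ev
  have hod : Sig (fun (z : CS) a => S (fun i => z (2 * i + 1)) a) := hS.reindex c_od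
  have hA : Pi1 {z : CS | ∀ a : ℕ × Bool,
      ¬ (S (fun i => z (2 * i)) a ∧ z (2 * a.1 + 1) = !a.2)} :=
    Pi1.of_sig (hev.and (Sig.bit (by fun_prop) (by fun_prop)))
  refine uniq ((hQ.preimage c_ev).inter hA) ⟨?_, ?_⟩ ?_
  · show (fun i => jn x (yS S x) (2 * i)) ∈ Q
    rw [jn_ev]; exact hxQ
  · rintro ⟨m, b⟩ ⟨h1, h2⟩
    rw [jn_ev] at h1
    rw [congrFun (jn_od x (yS S x)) m, yS_eq hxG.2.1 h1] at h2
    simp at h2
  · rintro z ⟨hzQ, hzA⟩ hz k
    generalize hx' : (fun i => z (2 * i)) = x' at hzQ hzA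
    have hx'Q : x' ∈ Q := by rw [← hx']; exact hzQ
    have hcomp : ∀ m b, S x' (m, b) → yS S x m = b := by
      intro m b hb
      have := hzA (m, b)
      simp only [hx', hz] at this
      revert this
      cases yS S x m <;> cases b <;> simp [hb]
    rw [congrFun hx' k]
    by_contra hne
    have hB : Pi1 {w : CS | ∀ a : ℕ × Bool,
        ¬ (S (fun i => w (2 * i)) a ∧ S (fun i => w (2 * i + 1)) (a.1, !a.2))} :=
      Pi1.of_sig (hev.and (hod.comp (f := fun a : ℕ × Bool => (a.1, !a.2)) (by fun_prop)))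
    have hW := (((hQ.preimage c_ev).inter (hQ.preimage c_od)).inter hB).inter
      ((Pi1.bit (2 * k) (x' k)).inter (Pi1.bit (2 * k + 1) (x k)))
    refine hW.not_meagre ⟨jn x' x, ⟨⟨?_, ?_⟩, ?_⟩, congrFun (jn_ev x' x) k,
      congrFun (jn_od x' x) k⟩ (((meagre_rx c_ev i_ev hm).union (meagre_rx c_od i_od hm)).mono ?_)
    · show (fun i => jn x' x (2 * i)) ∈ Q
      rw [jn_ev]; exact hx'Q
    · show (fun i => jn x' x (2 * i + 1)) ∈ Q
      rw [jn_od]; exact hxQ
    · rintro ⟨m, b⟩ ⟨h1, h2⟩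
      rw [jn_ev] at h1
      rw [jn_od] at h2
      have h3 := (hcomp m b h1).symm.trans (yS_eq hxG.2.1 h2)
      simp at h3
    · rintro w ⟨⟨⟨h1, h2⟩, h3⟩, h4, h5⟩
      by_contra hc
      have g1 : (fun i => w (2 * i)) ∈ GS P θ S := by
        by_contra hh
        exact hc (Or.inl ⟨h1, hh⟩)
      have g2 : (fun i => w (2 * i + 1)) ∈ GS P θ S := by
        by_contra hh
        exact hc (Or.inr ⟨h2, hh⟩)
      have hy : yS S (fun i => w (2 * i)) = yS S (fun i => w (2 * i + 1)) := by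
        funext m
        obtain ⟨b, hb⟩ := g1.2.2.1 m
        obtain ⟨b', hb'⟩ := g2.2.2.1 m
        rw [yS_eq g1.2.1 hb, yS_eq g2.2.1 hb']
        by_contra hbb
        have : b' = !b := by revert hbb; cases b <;> cases b' <;> simp
        exact h3 (m, b) ⟨hb, this ▸ hb'⟩
      have := congrFun (hinj _ _ _ g1.1 g2.1 g1.2.2.2 (hy ▸ g2.2.2.2)) k
      exact hne ((Eq.symm h4).trans (this.trans h5))

theorem measurableSet_GS {P : CS → Unit → Prop} (hP : Sig P) {θ : CS → CS → Prop}
    (hθ : MeasurableSet {p : CS × CS | θ p.1 p.2}) {S : CS → ℕ × Bool → Prop} (hS : Sig S) :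
    MeasurableSet (GS P θ S) := by
  have h1 : ∀ a, Measurable fun x => S x a := fun a =>
    measurableSet_setOfPred.1 (hS.isOpen a).measurableSet
  have h2 : Measurable fun x => P x () := measurableSet_setOfPred.1 (hP.isOpen ()).measurableSet
  have h3 : Measurable (yS S) := by
    refine measurable_pi_lambda _ fun m => measurable_to_bool ?_
    have : (fun x => yS S x m) ⁻¹' {true} = {x | S x (m, true)} := by
      ext x; simp [yS]
    rw [this]
    exact (hS.isOpen _).measurableSet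
  have h4 : Measurable fun x => θ x (yS S x) :=
    measurableSet_setOfPred.1 (hθ.preimage (measurable_id.prodMk h3))
  exact measurableSet_setOfPred.2 (h2.not.and ((Measurable.forall fun m => ((h1 _).and (h1 _)).not).and
    ((Measurable.forall fun m => Measurable.exists fun b => h1 _).and h4)))

theorem meagre_bad {P : CS → Unit → Prop} (hP : Sig P) {θ : CS → CS → Prop}
    (hθ : MeasurableSet {p : CS × CS | θ p.1 p.2})
    (hinj : ∀ x x' y, ¬ P x () → ¬ P x' () → θ x y → θ x' y → x = x')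
    {S : CS → ℕ × Bool → Prop} (hS : Sig S) :
    IsMeagre (X := CT) {x | x ∈ GS P θ S ∧ ¬ hat x ≤ᵀ hat (yS S x)} := by
  have h1 : MeasurableSet (α := CT) (val ⁻¹' GS P θ S) :=
    (measurableSet_GS hP hθ hS).preimage continuous_val.measurable
  obtain ⟨V, hV, hGV⟩ := h1.residualEq_isOpen
  have h2 : IsMeagre {x : CT | ¬ (x ∈ val ⁻¹' GS P θ S ↔ x ∈ V)} := by
    unfold IsMeagre
    filter_upwards [hGV.mem_iff] with x hx
    exact not_not.2 hx
  refine h2.mono ?_
  rintro x ⟨hx, hx'⟩ hh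
  obtain ⟨Q, hQ, hxQ, hsub⟩ := basisCT.exists_subset_of_mem_open (hh.1 hx) hV
  refine hx' (key hinj hS hQ (h2.mono ?_) hxQ hx)
  rintro w ⟨hw, hw'⟩ hh'
  exact hw' (hh'.2 (hsub hw))

theorem force {P : CS → Unit → Prop} (hP : Sig P) (hne : ∃ x, ¬ P x ())
    (hnc : ∀ x, ¬ P x () → ¬ Computable x)
    (θ : CS → CS → Prop) (hθ : MeasurableSet {p : CS × CS | θ p.1 p.2})
    (hinj : ∀ x x' y, ¬ P x () → ¬ P x' () → θ x y → θ x' y → x = x') :
    ¬ Set.Countable {x | ¬ P x () ∧ ∀ y, θ x y → hat y ≤ᵀ hat x → hat x ≤ᵀ hat y} := by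
  intro hc
  have hX : Pi1 {x | ¬ P x ()} := hP.of_iff fun x _ => by simp
  have h1 := isMeagre_biUnion (X := CT) hc (f := fun x => {x})
    fun x hx => meagre_singleton (hnc x hx.1)
  have h2 := isMeagre_biUnion (X := CT) (countable_sig (α := ℕ × Bool))
    (f := fun S => {x | x ∈ GS P θ S ∧ ¬ hat x ≤ᵀ hat (yS S x)})
    fun S hS => meagre_bad hP hθ hinj hS
  refine hX.not_meagre hne ((h1.union h2).mono fun x hx => ?_)
  by_cases hg : ∀ y, θ x y → hat y ≤ᵀ hat x → hat x ≤ᵀ hat y
  · exact Or.inl (mem_biUnion (x := x) ⟨hx, hg⟩ rfl)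
  · right
    push Not at hg
    obtain ⟨y, hy, hyx, hxy⟩ := hg
    obtain ⟨F, hF, hFx⟩ := exists_oracleRec (RecursiveIn.iff_nat.1 hyx)
    have hS : Sig (fun w (a : ℕ × Bool) => cond a.2 1 0 ∈ F (hat w) a.1) :=
      hF.sig.comp (f := fun a : ℕ × Bool => (a.1, cond a.2 1 0)) (by fun_prop)
    have h3 : ∀ m b, (cond b 1 0 ∈ F (hat x) m) ↔ b = y m := by
      intro m b
      rw [hFx]
      simp only [hat, Part.mem_some_iff]
      cases b <;> cases y m <;> simp
    have hsv : ∀ m, ¬ (cond true 1 0 ∈ F (hat x) m ∧ cond false 1 0 ∈ F (hat x) m) := by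
      intro m hh
      rw [h3, h3] at hh
      exact Bool.noConfusion (hh.1.trans hh.2.symm)
    have hyS : yS (fun w (a : ℕ × Bool) => cond a.2 1 0 ∈ F (hat w) a.1) x = y :=
      funext fun m => yS_eq hsv ((h3 m _).2 rfl)
    refine mem_biUnion hS ⟨⟨hx, hsv, fun m => ⟨y m, (h3 m _).2 rfl⟩, ?_⟩, ?_⟩
    · rw [hyS]; exact hy
    · rw [hyS]; exact hxy

end Pool.Agent.MinDeg

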