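import Mathlib

namespace Pool.Agent.MinDeg

open FirstOrder FirstOrder.Language

/-- Function symbols `0, 1, +, ·`. -/
inductive Fn : ℕ → Type
  | zero : Fn 0
  | one : Fn 0
  | add : Fn 2
  | mul : Fn 2

/-- The relation symbol `<`. -/
inductive Rl : ℕ → Type
  | lt : Rl 2

/-- The language `{+, ·, 0, 1, <}` of arithmetic. -/
def LA : Language := ⟨Fn, Rl⟩

def zeroT {α : Type} : LA.Term α := Term.func Fn.zero ![]
def oneT {α : Type} : LA.Term α := Term.func Fn.one ![]
def addT {α : Type} (s t : LA.Term α) : LA.Term α := Term.func Fn.add ![s, t]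
def mulT {α : Type} (s t : LA.Term α) : LA.Term α := Term.func Fn.mul ![s, t]
/-- The atomic formula `s < t`. -/
def ltF {α : Type} (s t : LA.Term α) : LA.Formula α := Relations.formula₂ (L := LA) Rl.lt s t

/-- Universal closure of a formula in `n` free variables. -/
noncomputable def close {n : ℕ} (φ : LA.Formula (Fin n)) : LA.Sentence :=
  Formula.iAlls (Fin n) (Formula.relabel (Sum.inr : Fin n → Empty ⊕ Fin n) φ)

/-- The eight basic axioms of Peano arithmetic, in the variables `x`, `y`. -/
def basic (x y : LA.Term (Fin 2)) : List (LA.Formula (Fin 2)) :=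
  [ ((addT x oneT).equal zeroT).not,
    ((addT x oneT).equal (addT y oneT)).imp (x.equal y),
    (addT x zeroT).equal x,
    (addT x (addT y oneT)).equal (addT (addT x y) oneT),
    (mulT x zeroT).equal zeroT,
    (mulT x (addT y oneT)).equal (addT (mulT x y) x),
    (ltF x zeroT).not,
    (ltF x (addT y oneT)).iff (ltF x y ⊔ x.equal y) ]

/-- The induction axiom for `φ(ȳ, x)`:
`∀ ȳ, φ(ȳ, 0) → (∀ x, φ(ȳ, x) → φ(ȳ, x + 1)) → ∀ x, φ(ȳ, x)`. -/
noncomputable def indAx {n : ℕ} (φ : LA.Formula (Fin n ⊕ Unit)) : LA.Sentence :=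
  close (BoundedFormula.imp
    (BoundedFormula.subst φ (Sum.elim Term.var fun _ => zeroT))
    (BoundedFormula.imp
      (Formula.iAlls Unit (BoundedFormula.imp φ (BoundedFormula.subst φ
        (Sum.elim (fun i => Term.var (Sum.inl i)) fun u => addT (Term.var (Sum.inr u)) oneT))))
      (Formula.iAlls Unit φ)))

/-- First-order Peano arithmetic. -/
def PA : LA.Theory :=
  {σ | (∃ φ ∈ basic (Term.var 0) (Term.var 1), σ = close φ) ∨
    ∃ (n : ℕ) (φ : LA.Formula (Fin n ⊕ Unit)), σ = indAx φ}

/-- The standard model. -/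
@[instance_reducible] def natS : LA.Structure ℕ where
  funMap {n} (f : Fn n) v := match f with
    | .zero => 0
    | .one => 1
    | .add => v 0 + v 1
    | .mul => v 0 * v 1
  RelMap {n} (r : Rl n) v := match r with
    | .lt => v 0 < v 1

/-- True arithmetic. -/
def TA : LA.Theory := @completeTheory LA ℕ natS

/-- Gödel number of `f(t₁, …)` from the numbers of the arguments. -/
def Fn.num : {n : ℕ} → Fn n → (Fin n → ℕ) → ℕ
  | _, .zero, _ => 0
  | _, .one, _ => 1
  | _, .add, v => 3 * Nat.pair (v 0) (v 1) + 3
  | _, .mul, v => 3 * Nat.pair (v 0) (v 1) + 4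

/-- Gödel number of a closed term with constants for the elements of `ω`
(`Term.var k` is the constant naming `k`). -/
def code : LA.Term ℕ → ℕ
  | .var k => 3 * k + 2
  | .func f ts => Fn.num f fun i => code (ts i)

/-- Gödel number of `s < t` from the numbers of `s` and `t`. -/
def Rl.num : {n : ℕ} → Rl n → (Fin n → ℕ) → ℕ
  | _, .lt, v => 4 * Nat.pair (v 0) (v 1) + 2

/-- Gödel number of a formula without free variables; the `i`-th bound variable (counted from
the outside) is numbered like `Term.var i`. -/
def gn : {n : ℕ} → LA.BoundedFormula Empty n → ℕ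
  | _, .falsum => 0
  | _, .equal s t => 4 * Nat.pair (code (s.relabel (Sum.elim Empty.elim Fin.val)))
      (code (t.relabel (Sum.elim Empty.elim Fin.val))) + 1
  | _, .rel r ts => Rl.num r fun i => code ((ts i).relabel (Sum.elim Empty.elim Fin.val))
  | _, .imp f g => 4 * Nat.pair (gn f) (gn g) + 3
  | _, .all f => 4 * gn f + 4

/-- A theory is computably enumerable if its set of Gödel numbers is. -/
def CE (U : LA.Theory) : Prop := REPred fun m : ℕ => ∃ σ ∈ U, gn σ = m

/-- The atomic diagram of a structure with universe `ω`, as a set of Gödel numbers: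
`2⟨s,t⟩` codes `s = t` and `2⟨s,t⟩+1` codes `s < t`. -/
def diagram (A : LA.Structure ℕ) : Set ℕ :=
  {n | ∃ s t : LA.Term ℕ,
    (n = 2 * Nat.pair (code s) (code t) ∧ @Formula.Realize LA ℕ A ℕ (s.equal t) id) ∨
    (n = 2 * Nat.pair (code s) (code t) + 1 ∧ @Formula.Realize LA ℕ A ℕ (ltF s t) id)}

open Classical in
/-- The Turing degree of the (characteristic function of the) atomic diagram. -/
noncomputable def deg (A : LA.Structure ℕ) : TuringDegree :=
  toAntisymmetrization TuringReducible fun n => Part.some (if n ∈ diagram A then 1 else 0)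

open Classical in
/-- The Turing degree of a theory (of its set of Gödel numbers). -/
noncomputable def degT (T : LA.Theory) : TuringDegree :=
  toAntisymmetrization TuringReducible fun n => Part.some (if ∃ σ ∈ T, gn σ = n then 1 else 0)

/-- The set `D_T` of degrees of models of `T` with universe `ω`. -/
def degrees (T : LA.Theory) : Set TuringDegree :=
  {d | ∃ A : LA.Structure ℕ, @Theory.Model LA ℕ A T ∧ deg A = d}

end Pool.Agent.MinDeg
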