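import Pool.Agent.P.MP_f8f34d_lc.Diag
import Pool.Agent.P.MP_f8f34d_lc.Force

/-! A table and its theory have the same degree. -/

namespace Pool.Agent.MinDeg

open FirstOrder FirstOrder.Language Pool.Agent.Lib.ComputableProp

theorem c_srec {step : List ℕ → ℕ} (hs : Computable step) : Computable (srec step) :=
  hs.comp (c_foldl (f := fun n : ℕ => List.range n) (g := fun _ => [])
    (h := fun (_ : ℕ) (L : List ℕ) (_ : ℕ) => L ++ [step L]) (by fun_prop) (by fun_prop)
    (c_append (by fun_prop) (c_cons (hs.comp (g := fun x : ℕ × List ℕ × ℕ => x.2.1) (by fun_prop))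
      (by fun_prop))))

def tbS (L : List ℕ) : ℕ :=
  cond (leb L.length 1) 0 (cond (eqb (L.length % 3) 2) (L.length / 3 + 1)
    (max (L.getD (L.length / 3 - 1).unpair.1 0) (L.getD (L.length / 3 - 1).unpair.2 0)))

/-- a bound for the variables of a term -/
def tmB : ℕ → ℕ := srec tbS

theorem c_tmB : Computable tmB := c_srec (by unfold tbS; fun_prop)

theorem tmB_var (k : ℕ) : tmB (code (Term.var k)) = k + 1 := by
  rw [tmB, srec_eq, code_var]
  have h1 : (3 * k + 2) % 3 = 2 := by omega
  have h2 : (3 * k + 2) / 3 = k := by omega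
  simp [tbS, eqb, leb, h1, h2]

theorem tmB_zero : tmB (code zeroT) = 0 := by rw [tmB, srec_eq, code_zero]; simp [tbS, leb]
theorem tmB_one : tmB (code oneT) = 0 := by rw [tmB, srec_eq, code_one]; simp [tbS, leb]

theorem tmB_op (a b n : ℕ) (h0 : ¬ n ≤ 1) (h1 : n % 3 ≠ 2) (h2 : n / 3 - 1 = Nat.pair a b) :
    tmB n = max (tmB a) (tmB b) := by
  rw [tmB, srec_eq]
  have h3 := Nat.left_le_pair a b
  have h4 := Nat.right_le_pair a b
  simp only [tbS, List.length_map, List.length_range, h2, Nat.unpair_pair]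
  rw [getD_range_map _ _ (by omega), getD_range_map _ _ (by omega)]
  simp [eqb, leb, h0, h1]

theorem tmB_add (s t : LA.Term ℕ) :
    tmB (code (addT s t)) = max (tmB (code s)) (tmB (code t)) := by
  rw [code_add]; exact tmB_op _ _ _ (by omega) (by omega) (by omega)

theorem tmB_mul (s t : LA.Term ℕ) :
    tmB (code (mulT s t)) = max (tmB (code s)) (tmB (code t)) := by
  rw [code_mul]; exact tmB_op _ _ _ (by omega) (by omega) (by omega)

def fbS (L : List ℕ) : ℕ :=
  cond (eqb (L.length % 4) 0) (L.getD (L.length / 4 - 1) 0 - 1) (cond (eqb (L.length % 4) 3)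
    (max (L.getD (L.length / 4).unpair.1 0) (L.getD (L.length / 4).unpair.2 0))
    (max (tmB (L.length / 4).unpair.1) (tmB (L.length / 4).unpair.2)))

/-- a bound for the free variables of a formula -/
def fmB : ℕ → ℕ := srec fbS

theorem c_fmB : Computable fmB := by
  have := c_tmB
  exact c_srec (by unfold fbS; fun_prop)

theorem fmB_fal : fmB 0 = 0 := by rw [fmB, srec_eq]; simp [fbS, eqb]

theorem fmB_at (a b r : ℕ) (h : r = 1 ∨ r = 2) :
    fmB (4 * Nat.pair a b + r) = max (tmB a) (tmB b) := by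
  rw [fmB, srec_eq]
  have h1 : ¬ (4 * Nat.pair a b + r) % 4 = 0 := by omega
  have h2 : ¬ (4 * Nat.pair a b + r) % 4 = 3 := by omega
  have h3 : (4 * Nat.pair a b + r) / 4 = Nat.pair a b := by omega
  simp only [fbS, List.length_map, List.length_range, h3, Nat.unpair_pair, eqb, h1, h2,
    decide_false, cond_false]

theorem fmB_imp (a b : ℕ) : fmB (4 * Nat.pair a b + 3) = max (fmB a) (fmB b) := by
  rw [fmB, srec_eq]
  have h1 : (4 * Nat.pair a b + 3) % 4 = 3 := by omega
  have h2 : (4 * Nat.pair a b + 3) / 4 = Nat.pair a b := by omega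
  have h3 := Nat.left_le_pair a b
  have h4 := Nat.right_le_pair a b
  simp only [fbS, List.length_map, List.length_range, h1, h2, Nat.unpair_pair]
  rw [getD_range_map _ _ (by omega : a < _), getD_range_map _ _ (by omega : b < _)]
  simp [eqb]

theorem fmB_all (a : ℕ) : fmB (4 * a + 4) = fmB a - 1 := by
  rw [fmB, srec_eq]
  have h1 : (4 * a + 4) % 4 = 0 := by omega
  have h2 : (4 * a + 4) / 4 - 1 = a := by omega
  simp only [fbS, List.length_map, List.length_range, h1, h2]
  rw [getD_range_map _ _ (by omega)]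
  simp [eqb]

section
variable {α β : Type}
theorem relabel_addT (g : α → β) (s t : LA.Term α) :
    (addT s t).relabel g = addT (s.relabel g) (t.relabel g) := by
  simp only [addT, Term.relabel]; congr 1; funext i; fin_cases i <;> rfl
theorem relabel_mulT (g : α → β) (s t : LA.Term α) :
    (mulT s t).relabel g = mulT (s.relabel g) (t.relabel g) := by
  simp only [mulT, Term.relabel]; congr 1; funext i; fin_cases i <;> rfl
theorem relabel_zeroT (g : α → β) : (zeroT : LA.Term α).relabel g = zeroT := by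
  simp only [zeroT, Term.relabel]; congr 1; exact Subsingleton.elim _ _
theorem relabel_oneT (g : α → β) : (oneT : LA.Term α).relabel g = oneT := by
  simp only [oneT, Term.relabel]; congr 1; exact Subsingleton.elim _ _
theorem subst_addT (g : α → LA.Term β) (s t : LA.Term α) :
    (addT s t).subst g = addT (s.subst g) (t.subst g) := by
  simp only [addT, Term.subst]; congr 1; funext i; fin_cases i <;> rfl
theorem subst_mulT (g : α → LA.Term β) (s t : LA.Term α) :
    (mulT s t).subst g = mulT (s.subst g) (t.subst g) := by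
  simp only [mulT, Term.subst]; congr 1; funext i; fin_cases i <;> rfl
theorem subst_zeroT (g : α → LA.Term β) : (zeroT : LA.Term α).subst g = zeroT := by
  simp only [zeroT, Term.subst]; congr 1; exact Subsingleton.elim _ _
theorem subst_oneT (g : α → LA.Term β) : (oneT : LA.Term α).subst g = oneT := by
  simp only [oneT, Term.subst]; congr 1; exact Subsingleton.elim _ _
end

theorem fmB_gn {n : ℕ} (φ : LA.BoundedFormula Empty n) : fmB (gn φ) ≤ n := by
  have ht : ∀ {n : ℕ} (s : LA.Term (Empty ⊕ Fin n)),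
      tmB (code (s.relabel (Sum.elim Empty.elim Fin.val))) ≤ n := by
    intro n s
    induction s using term_ind with
    | hv a =>
      rcases a with a | i
      · exact a.elim
      · exact (tmB_var i).trans_le i.2
    | h0 => rw [relabel_zeroT, tmB_zero]; omega
    | h1 => rw [relabel_oneT, tmB_one]; omega
    | ha s t i j => rw [relabel_addT, tmB_add]; exact max_le i j
    | hm s t i j => rw [relabel_mulT, tmB_mul]; exact max_le i j
  induction φ with
  | falsum => exact fmB_fal.trans_le (Nat.zero_le _)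
  | equal s t => exact (fmB_at _ _ 1 (Or.inl rfl)).trans_le (max_le (ht s) (ht t))
  | rel r ts => cases r; exact (fmB_at _ _ 2 (Or.inr rfl)).trans_le (max_le (ht _) (ht _))
  | imp f g i j => exact (fmB_imp _ _).trans_le (max_le i j)
  | all f i => exact (fmB_all _).trans_le (by omega)

theorem gn_T2 (p : Fm) : ∀ n, fmB p.enc ≤ n → gn (T2 p n) = p.enc := by
  have ht : ∀ n (s : LA.Term ℕ), tmB (code s) ≤ n →
      (s.subst (vr n)).relabel (Sum.elim Empty.elim Fin.val) = s := by
    intro n s
    induction s using term_ind with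
    | hv a =>
      intro h
      rw [tmB_var] at h
      simp only [Term.subst, vr, dif_pos (show a < n from h)]
      rfl
    | h0 => intro _; rw [subst_zeroT, relabel_zeroT]
    | h1 => intro _; rw [subst_oneT, relabel_oneT]
    | ha s t i j =>
      intro h
      rw [tmB_add, max_le_iff] at h
      rw [subst_addT, relabel_addT, i h.1, j h.2]
    | hm s t i j =>
      intro h
      rw [tmB_mul, max_le_iff] at h
      rw [subst_mulT, relabel_mulT, i h.1, j h.2]
  induction p with
  | fal => intro n _; rfl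
  | eq s t =>
    intro n h
    rw [Fm.enc, fmB_at _ _ 1 (Or.inl rfl), max_le_iff] at h
    simp only [T2, gn, Fm.enc, ht n s h.1, ht n t h.2]
  | lt s t =>
    intro n h
    rw [Fm.enc, fmB_at _ _ 2 (Or.inr rfl), max_le_iff] at h
    simp only [T2, gn, Rl.num, Fm.enc, Matrix.cons_val_zero, Matrix.cons_val_one, ht n s h.1, ht n t h.2]
  | imp p q i j =>
    intro n h
    rw [Fm.enc, fmB_imp, max_le_iff] at h
    simp only [T2, gn, Fm.enc, i n h.1, j n h.2]
  | all p i =>
    intro n h
    rw [Fm.enc, fmB_all] at h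
    simp only [T2, gn, Fm.enc, i (n + 1) (by omega)]

open Classical in
noncomputable def tg (T : LA.Theory) : CS := fun n => decide (∃ σ ∈ T, gn σ = n)

theorem degT_eq (T : LA.Theory) : degT T = toAntisymmetrization TuringReducible (hat (tg T)) := by
  unfold degT hat tg
  congr 1
  funext n
  by_cases h : ∃ σ ∈ T, gn σ = n
  · simp only [h, if_true, decide_true, cond_true]
  · simp only [h, if_false, decide_false, cond_false]

theorem Tab.gn_iff {x : CS} (T : Tab x) (σ : LA.Sentence) :
    x (ix (gn σ) []) = true ↔ σ ∈ @completeTheory LA ℕ (A x) := by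
  rw [← enc_T1, ← T.truth0, @sat_T1_sentence ℕ (A x)]
  rfl

theorem Tab.tg_eq {x : CS} (T : Tab x) (n : ℕ) :
    tg (@completeTheory LA ℕ (A x)) n = (eqb (fmB n) 0 && x (ix n [])) := by
  rw [Bool.eq_iff_iff]
  simp only [tg, decide_eq_true_eq, Bool.and_eq_true, eqb_iff]
  constructor
  · rintro ⟨σ, h, rfl⟩
    exact ⟨Nat.le_zero.1 (fmB_gn σ), (T.gn_iff σ).2 h⟩
  · rintro ⟨h1, h2⟩
    obtain ⟨p, rfl⟩ := enc_surj n
    have := gn_T2 p 0 h1.le
    exact ⟨T2 p 0, (T.gn_iff _).1 (by rw [this]; exact h2), this⟩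

theorem Tab.tg_le {x : CS} (T : Tab x) :
    TuringReducible (hat (tg (@completeTheory LA ℕ (A x)))) (hat x) := by
  have hB := c_fmB
  have hS : Sig (fun x (a : ℕ × ℕ) => ∃ b : Bool, x (ix a.1 []) = b ∧
      a.2 = cond (eqb (fmB a.1) 0 && b) 1 0) :=
    Sig.ex (Sig.and (Sig.bit (f := fun z : (ℕ × ℕ) × Bool => ix z.1.1 []) (by fun_prop)
      (by fun_prop)) (Sig.of_re (RE.eq (by fun_prop) (by fun_prop))))
  refine RecursiveIn.iff_nat.2 (hS.tr
    (f := fun n => cond (tg (@completeTheory LA ℕ (A x)) n) 1 0) fun k v => ?_)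
  rw [T.tg_eq]
  simp

theorem Tab.le_tg {x : CS} (T : Tab x) :
    TuringReducible (hat x) (hat (tg (@completeTheory LA ℕ (A x)))) := by
  have hB := c_fmB
  have h1 : PiC (fun z => Tab fun i => z (2 * i)) := Sig.reindex pi_tab c_ev
  have h2 : PiC (fun z => ∀ n, fmB n = 0 → z (2 * ix n []) = z (2 * n + 1)) :=
    (Sig.ex (P := fun z (_ : Unit) n => fmB n = 0 ∧ z (2 * ix n []) ≠ z (2 * n + 1))
      ((Sig.of_re (RE.eq (by fun_prop) (by fun_prop))).and
        (sig3 (f := fun w : Unit × ℕ => 2 * ix w.2 []) (g := fun w => 2 * w.2 + 1)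
          (h := fun _ => 0) (fun a b _ => a ≠ b) (by fun_prop) (by fun_prop)
          (by fun_prop)))).of_iff fun _ _ => by simp
  refine uniq (W := {z | (Tab fun i => z (2 * i)) ∧
    ∀ n, fmB n = 0 → z (2 * ix n []) = z (2 * n + 1)}) (h1.and h2) ⟨by rw [jn_ev]; exact T, ?_⟩ ?_
  · intro n hn
    rw [congrFun (jn_ev _ _) (ix n []), congrFun (jn_od _ _) n, T.tg_eq, hn]
    simp [eqb]
  · rintro z ⟨T', hz⟩ hy
    refine congrFun (T'.inj T fun p => ?_)
    have h0 : fmB (gn (T2 p 0)) = 0 := Nat.le_zero.1 (fmB_gn _)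
    have h3 := hz _ h0
    rw [hy, T.tg_eq, h0] at h3
    have e : ∀ w, Tab w → (w (ix p.enc []) = true ↔ w (ix (gn (T2 p 0)) []) = true) := by
      intro w Tw
      rw [Tw.gn_iff, ← Tw.truth0, ← @sat_T2_sentence ℕ (A w)]
      rfl
    rw [e _ T', e _ T]
    show z (2 * ix (gn (T2 p 0)) []) = true ↔ _
    rw [h3]
    simp [eqb]

end Pool.Agent.MinDeg
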