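import Pool.Agent.P.MP_f8f34d_lc.Val

/-! Atomic diagrams as points of Cantor space. -/

namespace Pool.Agent.MinDeg

open FirstOrder FirstOrder.Language Pool.Agent.Lib.ComputableProp

theorem mem_diagram_eq (B : LA.Structure ℕ) (s t : LA.Term ℕ) :
    2 * Nat.pair (code s) (code t) ∈ diagram B ↔
      @Term.realize LA ℕ B ℕ id s = @Term.realize LA ℕ B ℕ id t := by
  constructor
  · rintro ⟨s', t', ⟨h1, h2⟩ | ⟨h1, -⟩⟩
    · obtain ⟨k1, k2⟩ := Nat.pair_eq_pair.1 (by omega :
        Nat.pair (code s) (code t) = Nat.pair (code s') (code t'))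
      rw [code_inj k1, code_inj k2]
      exact Formula.realize_equal.1 h2
    · omega
  · intro h
    exact ⟨s, t, Or.inl ⟨rfl, Formula.realize_equal.2 h⟩⟩

theorem mem_diagram_lt (B : LA.Structure ℕ) (s t : LA.Term ℕ) :
    2 * Nat.pair (code s) (code t) + 1 ∈ diagram B ↔
      @lM ℕ B (@Term.realize LA ℕ B ℕ id s) (@Term.realize LA ℕ B ℕ id t) := by
  constructor
  · rintro ⟨s', t', ⟨h1, -⟩ | ⟨h1, h2⟩⟩
    · omega
    · obtain ⟨k1, k2⟩ := Nat.pair_eq_pair.1 (by omega :
        Nat.pair (code s) (code t) = Nat.pair (code s') (code t'))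
      rw [code_inj k1, code_inj k2]
      exact (realize_ltF _ _ _).1 h2
  · intro h
    exact ⟨s, t, Or.inr ⟨rfl, (realize_ltF _ _ _).2 h⟩⟩

open Classical in
noncomputable def dg (B : LA.Structure ℕ) : CS := fun n => decide (n ∈ diagram B)

theorem deg_eq (B : LA.Structure ℕ) : deg B = toAntisymmetrization TuringReducible (hat (dg B)) := by
  unfold deg hat dg
  congr 1
  funext n
  by_cases h : n ∈ diagram B <;> simp [h]

def vl (l : List ℕ) (i : ℕ) : LA.Term ℕ := (l.map Term.var).getD i zeroT

/-- truth read off a diagram -/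
def Tr (y : CS) : Fm → List ℕ → Prop
  | .fal, _ => False
  | .eq s t, l => y (2 * Nat.pair (code (s.subst (vl l))) (code (t.subst (vl l)))) = true
  | .lt s t, l => y (2 * Nat.pair (code (s.subst (vl l))) (code (t.subst (vl l))) + 1) = true
  | .imp p q, l => Tr y p l → Tr y q l
  | .all p, l => ∀ a, Tr y p (l ++ [a])

theorem tr_dg (B : LA.Structure ℕ) (p : Fm) : ∀ l, Tr (dg B) p l ↔ @Sat ℕ B p l := by
  have ht : ∀ (l : List ℕ) (t : LA.Term ℕ), (t.subst (vl l)).realize id = ev l t := by
    intro l t
    simp only [ev, Term.realize_subst]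
    congr 1
    funext i
    have := List.getD_map (l.map Term.var) zeroT (n := i) (Term.realize (L := LA) (id : ℕ → ℕ))
    rw [vl, ← this, realize_zeroT, List.map_map]
    congr 1
    exact List.map_id'' (fun _ => rfl) l
  induction p with
  | fal => intro l; rfl
  | eq s t => intro l; simp only [Tr, dg, decide_eq_true_eq, mem_diagram_eq, ht, sat_eq]
  | lt s t => intro l; simp only [Tr, dg, decide_eq_true_eq, mem_diagram_lt, ht, sat_lt]
  | imp p q i j => intro l; simp only [Tr, i, j, sat_imp]
  | all p i => intro l; simp only [Tr, i, sat_all]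

theorem measurable_bit {α : Type} [MeasurableSpace α] {f : α → CS} (hf : Measurable f) (n : ℕ) :
    Measurable (fun a => f a n = true) :=
  (measurable_of_countable (fun b : Bool => b = true)).comp ((measurable_pi_apply n).comp hf)

theorem measurable_tr (p : Fm) : ∀ l, Measurable (fun y : CS => Tr y p l) := by
  induction p with
  | fal => intro l; exact measurable_const
  | eq s t => intro l; exact measurable_bit measurable_id _
  | lt s t => intro l; exact measurable_bit measurable_id _
  | imp p q i j => intro l; exact (i l).imp (j l)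
  | all p i => intro l; exact Measurable.forall fun a => i _

def Th (x y : CS) : Prop := ∀ p : Fm, x (ix p.enc []) = true ↔ Tr y p []

theorem measurableSet_th : MeasurableSet {p : CS × CS | Th p.1 p.2} := by
  have : Countable Fm := enc_inj.countable
  exact measurableSet_setOfPred.2 (Measurable.forall fun p =>
    (measurable_bit measurable_fst _).iff ((measurable_tr p []).comp measurable_snd))

theorem ev_range (B : LA.Structure ℕ) (N : ℕ) (t : LA.Term ℕ) (h : code t ≤ N) :
    ev (List.range N) t = t.realize id := by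
  induction t using term_ind with
  | hv a =>
    rw [code_var] at h
    have := getD_range_map (fun i => i) (zM : ℕ) (by omega : a < N)
    rw [List.map_id'] at this
    exact this
  | h0 => simp
  | h1 => simp
  | ha s t i j =>
    rw [code_add] at h
    have h3 := Nat.left_le_pair (code s) (code t)
    have h4 := Nat.right_le_pair (code s) (code t)
    rw [ev_add, realize_addT, i (by omega), j (by omega)]
  | hm s t i j =>
    rw [code_mul] at h
    have h3 := Nat.left_le_pair (code s) (code t)
    have h4 := Nat.right_le_pair (code s) (code t)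
    rw [ev_mul, realize_mulT, i (by omega), j (by omega)]

theorem Tab.dg_eq {x : CS} (T : Tab x) (n : ℕ) :
    dg (A x) n = x (ix (4 * (n / 2) + 1 + n % 2) ((List.range (n / 2)).map (el x))) := by
  obtain ⟨s, hs⟩ := code_surj (n / 2).unpair.1
  obtain ⟨t, ht⟩ := code_surj (n / 2).unpair.2
  have h : Nat.pair (code s) (code t) = n / 2 := by rw [hs, ht, Nat.pair_unpair]
  have h3 := Nat.left_le_pair (code s) (code t)
  have h4 := Nat.right_le_pair (code s) (code t)
  have hl : ((List.range (n / 2)).map (el x)).map (ind x) = List.range (n / 2) := by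
    rw [List.map_map]
    exact List.map_id'' (fun k => T.ind_el k) _
  rw [Bool.eq_iff_iff]
  simp only [dg, decide_eq_true_eq]
  rcases (by omega : n % 2 = 0 ∨ n % 2 = 1) with h2 | h2
  · have := T.truth (.eq s t) ((List.range (n / 2)).map (el x))
    rw [hl, @sat_eq ℕ (A x), ev_range _ _ _ (by omega), ev_range _ _ _ (by omega),
      ← mem_diagram_eq, Fm.enc, h, (by omega : 2 * (n / 2) = n)] at this
    rw [h2]; exact this
  · have := T.truth (.lt s t) ((List.range (n / 2)).map (el x))
    rw [hl, @sat_lt ℕ (A x), ev_range _ _ _ (by omega), ev_range _ _ _ (by omega),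
      ← mem_diagram_lt, Fm.enc, h, (by omega : 2 * (n / 2) + 1 = n)] at this
    rw [h2]; exact this

/-- `l` lists the first representatives -/
def EL (x : CS) (l : List ℕ) : Prop :=
  ∀ i < l.length, (Rep x (l.getD i 0) ∧ ∀ k < i, l.getD k 0 < l.getD i 0) ∧
    ∀ j < l.getD i 0, (∃ a, a < j ∧ x (eqI a j) = true) ∨ ∃ k < i, j ≤ l.getD k 0

theorem sig_EL : Sig EL := by
  refine Sig.forall_lt (l := fun l : List ℕ => l.length) (by fun_prop) (Sig.and (Sig.and ?_ ?_) ?_)
  · exact Sig.forall_lt (l := fun w : List ℕ × ℕ => w.1.getD w.2 0) (by fun_prop)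
      (Sig.bit (f := fun w : (List ℕ × ℕ) × ℕ => eqI w.2 (w.1.1.getD w.1.2 0)) (by fun_prop)
        (by fun_prop))
  · exact Sig.of_re (RE.forall_lt (l := fun w : List ℕ × ℕ => w.2)
      (R := fun w k => w.1.getD k 0 < w.1.getD w.2 0) (by fun_prop)
      (RE.lt (by fun_prop) (by fun_prop)))
  · refine Sig.forall_lt (l := fun w : List ℕ × ℕ => w.1.getD w.2 0) (by fun_prop) (Sig.or ?_ ?_)
    · exact Sig.ex (Sig.and (Sig.of_re (RE.lt (by fun_prop) (by fun_prop)))
        (Sig.bit (f := fun w : ((List ℕ × ℕ) × ℕ) × ℕ => eqI w.2 w.1.2) (by fun_prop)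
          (by fun_prop)))
    · exact Sig.of_re (RE.exists_lt (l := fun w : (List ℕ × ℕ) × ℕ => w.1.2)
        (R := fun w k => w.2 ≤ w.1.1.getD k 0) (by fun_prop) (RE.le (by fun_prop) (by fun_prop)))

theorem Tab.EL_iff {x : CS} (T : Tab x) (l : List ℕ) :
    EL x l ↔ l = (List.range l.length).map (el x) := by
  have hn : ∀ j, (∃ a, a < j ∧ x (eqI a j) = true) ↔ ¬ Rep x j := by
    intro j; simp [Rep]
  have hm : StrictMono (el x) := Nat.nth_strictMono T.inf
  constructor
  · intro h
    have key : ∀ i, i < l.length → l.getD i 0 = el x i := by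
      intro i
      induction i using Nat.strong_induction_on with
      | _ i ih =>
        intro hi
        obtain ⟨⟨h1, h2⟩, h3⟩ := h i hi
        rw [el, Nat.nth_eq_sInf]
        symm
        refine IsLeast.csInf_eq ⟨⟨h1, fun k hk => ?_⟩, fun j hj => not_lt.1 fun hlt => ?_⟩
        · have := h2 k hk
          rwa [ih k hk (by omega)] at this
        · rcases h3 j hlt with h4 | ⟨k, hk, h4⟩
          · exact (hn j).1 h4 hj.1
          · rw [ih k hk (by omega)] at h4
            exact absurd (hj.2 k hk) (not_lt.2 h4)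
    refine List.ext_getElem (by simp) fun i hi _ => ?_
    rw [← List.getD_eq_getElem _ 0 hi, key i hi]
    simp
  · intro h i hi
    have key : ∀ i, i < l.length → l.getD i 0 = el x i := fun i hi => by
      rw [h, getD_range_map _ _ hi]
    rw [key i hi]
    refine ⟨⟨Nat.nth_mem_of_infinite T.inf i, fun k hk => ?_⟩, fun j hj => ?_⟩
    · rw [key k (by omega)]; exact hm hk
    · by_cases hr : Rep x j
      · classical
        have e : el x (Nat.count (Rep x) j) = j := Nat.nth_count hr
        have hk : Nat.count (Rep x) j < i := hm.lt_iff_lt.1 (by rw [e]; exact hj)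
        exact Or.inr ⟨_, hk, by rw [key _ (by omega), e]⟩
      · exact Or.inl ((hn j).2 hr)

theorem Tab.dg_le {x : CS} (T : Tab x) : TuringReducible (hat (dg (A x))) (hat x) := by
  have hS : Sig (fun x (a : ℕ × ℕ) => ∃ w : List ℕ × Bool, EL x w.1 ∧
      x (ix (4 * (a.1 / 2) + 1 + a.1 % 2) w.1) = w.2 ∧
      (w.1.length = a.1 / 2 ∧ a.2 = cond w.2 1 0)) :=
    Sig.ex (Sig.and (sig_EL.comp (f := fun z : (ℕ × ℕ) × List ℕ × Bool => z.2.1) (by fun_prop))
      (Sig.and (Sig.bit (f := fun z : (ℕ × ℕ) × List ℕ × Bool =>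
        ix (4 * (z.1.1 / 2) + 1 + z.1.1 % 2) z.2.1) (by fun_prop) (by fun_prop))
      (Sig.of_re (RE.and (RE.eq (by fun_prop) (by fun_prop)) (RE.eq (by fun_prop) (by fun_prop))))))
  refine RecursiveIn.iff_nat.2 (hS.tr (f := fun n => cond (dg (A x) n) 1 0) fun k v => ?_)
  rw [T.dg_eq]
  constructor
  · rintro ⟨⟨l, b⟩, h1, h2, h3, h4⟩
    rw [T.EL_iff] at h1
    simp only at h1 h2 h3 h4
    rw [h3] at h1
    rw [h4, ← h1, h2]
  · intro h
    exact ⟨((List.range (k / 2)).map (el x), _), (T.EL_iff _).2 (by simp), rfl, by simp, h⟩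

end Pool.Agent.MinDeg
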