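import Pool.Agent.P.MP_f8f34d_lc.Defs

/-! Untyped formulas with de Bruijn levels, evaluated at lists. -/

namespace Pool.Agent.MinDeg

open FirstOrder FirstOrder.Language

inductive Fm : Type
  | fal : Fm
  | eq (s t : LA.Term ℕ) : Fm
  | lt (s t : LA.Term ℕ) : Fm
  | imp (p q : Fm) : Fm
  | all (p : Fm) : Fm

def Fm.enc : Fm → ℕ
  | .fal => 0
  | .eq s t => 4 * Nat.pair (code s) (code t) + 1
  | .lt s t => 4 * Nat.pair (code s) (code t) + 2
  | .imp p q => 4 * Nat.pair p.enc q.enc + 3
  | .all p => 4 * p.enc + 4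

def Fm.neg (p : Fm) : Fm := .imp p .fal
def Fm.and (p q : Fm) : Fm := .neg (.imp p q.neg)
def Fm.or (p q : Fm) : Fm := .imp p.neg q
def Fm.ex (p : Fm) : Fm := .neg (.all p.neg)

theorem term_ind {α : Type} {P : LA.Term α → Prop} (hv : ∀ a, P (Term.var a))
    (h0 : P zeroT) (h1 : P oneT) (ha : ∀ s t, P s → P t → P (addT s t))
    (hm : ∀ s t, P s → P t → P (mulT s t)) (t : LA.Term α) : P t := by
  induction t with
  | var a => exact hv a
  | func f ts ih =>
    cases f with
    | zero => exact (Subsingleton.elim ![] ts) ▸ h0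
    | one => exact (Subsingleton.elim ![] ts) ▸ h1
    | add =>
      have : ts = ![ts 0, ts 1] := by funext i; fin_cases i <;> rfl
      rw [this]; exact ha _ _ (ih 0) (ih 1)
    | mul =>
      have : ts = ![ts 0, ts 1] := by funext i; fin_cases i <;> rfl
      rw [this]; exact hm _ _ (ih 0) (ih 1)

@[simp] theorem code_var (k : ℕ) : code (Term.var k) = 3 * k + 2 := rfl
@[simp] theorem code_zero : code zeroT = 0 := rfl
@[simp] theorem code_one : code oneT = 1 := rfl
@[simp] theorem code_add (s t : LA.Term ℕ) :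
    code (addT s t) = 3 * Nat.pair (code s) (code t) + 3 := rfl
@[simp] theorem code_mul (s t : LA.Term ℕ) :
    code (mulT s t) = 3 * Nat.pair (code s) (code t) + 4 := rfl

theorem code_surj (n : ℕ) : ∃ t, code t = n := by
  induction n using Nat.strong_induction_on with
  | _ n ih =>
    have key : ∀ k, k < n → ∃ s t, Nat.pair (code s) (code t) = k := by
      intro k hk
      obtain ⟨s, hs⟩ := ih k.unpair.1 (lt_of_le_of_lt (Nat.unpair_left_le k) hk)
      obtain ⟨t, ht⟩ := ih k.unpair.2 (lt_of_le_of_lt (Nat.unpair_right_le k) hk)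
      exact ⟨s, t, by rw [hs, ht, Nat.pair_unpair]⟩
    rcases (by omega : n = 0 ∨ n = 1 ∨ n % 3 = 2 ∨ (n % 3 = 0 ∧ 3 ≤ n) ∨ (n % 3 = 1 ∧ 4 ≤ n)) with
      h | h | h | h | h
    · exact ⟨zeroT, by simp [h]⟩
    · exact ⟨oneT, by simp [h]⟩
    · exact ⟨Term.var (n / 3), by simp; omega⟩
    · obtain ⟨s, t, hst⟩ := key (n / 3 - 1) (by omega)
      exact ⟨addT s t, by simp [hst]; omega⟩
    · obtain ⟨s, t, hst⟩ := key (n / 3 - 1) (by omega)
      exact ⟨mulT s t, by simp [hst]; omega⟩

theorem code_inj : Function.Injective code := by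
  intro s
  induction s using term_ind with
  | hv a => intro t; induction t using term_ind <;> simp <;> omega
  | h0 => intro t; induction t using term_ind <;> simp
  | h1 => intro t; induction t using term_ind <;> simp
  | ha s₁ s₂ i₁ i₂ =>
    intro t
    induction t using term_ind with
    | ha t₁ t₂ =>
      intro h
      simp only [code_add, add_left_inj, mul_eq_mul_left_iff, Nat.pair_eq_pair] at h
      rcases h with ⟨h1, h2⟩ | h
      · rw [i₁ h1, i₂ h2]
      · omega
    | _ => simp <;> omega
  | hm s₁ s₂ i₁ i₂ =>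
    intro t
    induction t using term_ind with
    | hm t₁ t₂ =>
      intro h
      simp only [code_mul, add_left_inj, mul_eq_mul_left_iff, Nat.pair_eq_pair] at h
      rcases h with ⟨h1, h2⟩ | h
      · rw [i₁ h1, i₂ h2]
      · omega
    | _ => simp <;> omega

theorem enc_surj (n : ℕ) : ∃ p : Fm, p.enc = n := by
  induction n using Nat.strong_induction_on with
  | _ n ih =>
    have key : ∀ k, ∃ s t, Nat.pair (code s) (code t) = k := by
      intro k
      obtain ⟨s, hs⟩ := code_surj k.unpair.1
      obtain ⟨t, ht⟩ := code_surj k.unpair.2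
      exact ⟨s, t, by rw [hs, ht, Nat.pair_unpair]⟩
    rcases (by omega : n = 0 ∨ n % 4 = 1 ∨ n % 4 = 2 ∨ n % 4 = 3 ∨ (n % 4 = 0 ∧ 4 ≤ n)) with
      h | h | h | h | h
    · exact ⟨.fal, by simp [h, Fm.enc]⟩
    · obtain ⟨s, t, hst⟩ := key (n / 4)
      exact ⟨.eq s t, by simp only [Fm.enc, hst]; omega⟩
    · obtain ⟨s, t, hst⟩ := key (n / 4)
      exact ⟨.lt s t, by simp only [Fm.enc, hst]; omega⟩
    · obtain ⟨s, hs⟩ := ih (n / 4).unpair.1 (lt_of_le_of_lt (Nat.unpair_left_le _) (by omega))
      obtain ⟨t, ht⟩ := ih (n / 4).unpair.2 (lt_of_le_of_lt (Nat.unpair_right_le _) (by omega))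
      exact ⟨.imp s t, by simp only [Fm.enc, hs, ht, Nat.pair_unpair]; omega⟩
    · obtain ⟨s, hs⟩ := ih (n / 4 - 1) (by omega)
      exact ⟨.all s, by simp only [Fm.enc, hs]; omega⟩

theorem enc_inj : Function.Injective Fm.enc := by
  intro p
  induction p with
  | fal => intro q; cases q <;> simp [Fm.enc]
  | eq s t =>
    intro q h
    cases q with
    | eq s' t' =>
      simp only [Fm.enc, add_left_inj, mul_eq_mul_left_iff, Nat.pair_eq_pair] at h
      rcases h with ⟨h1, h2⟩ | h
      · rw [code_inj h1, code_inj h2]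
      · omega
    | _ => simp only [Fm.enc] at h; omega
  | lt s t =>
    intro q h
    cases q with
    | lt s' t' =>
      simp only [Fm.enc, add_left_inj, mul_eq_mul_left_iff, Nat.pair_eq_pair] at h
      rcases h with ⟨h1, h2⟩ | h
      · rw [code_inj h1, code_inj h2]
      · omega
    | _ => simp only [Fm.enc] at h; omega
  | imp p₁ p₂ i₁ i₂ =>
    intro q h
    cases q with
    | imp q₁ q₂ =>
      simp only [Fm.enc, add_left_inj, mul_eq_mul_left_iff, Nat.pair_eq_pair] at h
      rcases h with ⟨h1, h2⟩ | h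
      · rw [i₁ h1, i₂ h2]
      · omega
    | _ => simp only [Fm.enc] at h; omega
  | all p i =>
    intro q h
    cases q with
    | all q =>
      simp only [Fm.enc] at h
      rw [i (by omega : p.enc = q.enc)]
    | _ => simp only [Fm.enc] at h; omega

section Sem

variable {M : Type} [S : LA.Structure M]

def zM : M := S.funMap Fn.zero ![]
def oM : M := S.funMap Fn.one ![]
def aM (a b : M) : M := S.funMap Fn.add ![a, b]
def mM (a b : M) : M := S.funMap Fn.mul ![a, b]
def lM (a b : M) : Prop := S.RelMap Rl.lt ![a, b]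

@[simp] theorem realize_zeroT {α : Type} (v : α → M) : (zeroT : LA.Term α).realize v = zM := by
  simp only [zeroT, Term.realize, zM]; congr 1; exact Subsingleton.elim _ _
@[simp] theorem realize_oneT {α : Type} (v : α → M) : (oneT : LA.Term α).realize v = oM := by
  simp only [oneT, Term.realize, oM]; congr 1; exact Subsingleton.elim _ _
@[simp] theorem realize_addT {α : Type} (v : α → M) (s t : LA.Term α) :
    (addT s t).realize v = aM (s.realize v) (t.realize v) := by
  simp only [addT, Term.realize, aM]; congr 1; funext i; fin_cases i <;> rfl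
@[simp] theorem realize_mulT {α : Type} (v : α → M) (s t : LA.Term α) :
    (mulT s t).realize v = mM (s.realize v) (t.realize v) := by
  simp only [mulT, Term.realize, mM]; congr 1; funext i; fin_cases i <;> rfl
@[simp] theorem realize_ltF {α : Type} (v : α → M) (s t : LA.Term α) :
    (ltF s t).Realize v ↔ lM (s.realize v) (t.realize v) := by
  simp only [ltF, Formula.realize_rel₂, lM]

/-- value of a term at a list; variables out of range are read as zero -/
def ev (l : List M) (t : LA.Term ℕ) : M := t.realize fun i => l.getD i zM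

@[simp] theorem ev_var (l : List M) (i : ℕ) : ev l (Term.var i) = l.getD i zM := rfl
@[simp] theorem ev_zero (l : List M) : ev l zeroT = zM := realize_zeroT _
@[simp] theorem ev_one (l : List M) : ev l oneT = oM := realize_oneT _
@[simp] theorem ev_add (l : List M) (s t) : ev l (addT s t) = aM (ev l s) (ev l t) :=
  realize_addT _ _ _
@[simp] theorem ev_mul (l : List M) (s t) : ev l (mulT s t) = mM (ev l s) (ev l t) :=
  realize_mulT _ _ _

def Sat : Fm → List M → Prop
  | .fal, _ => False
  | .eq s t, l => ev l s = ev l t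
  | .lt s t, l => lM (ev l s) (ev l t)
  | .imp p q, l => Sat p l → Sat q l
  | .all p, l => ∀ a, Sat p (l ++ [a])

@[simp] theorem sat_fal (l : List M) : Sat .fal l ↔ False := Iff.rfl
@[simp] theorem sat_eq (s t) (l : List M) : Sat (.eq s t) l ↔ ev l s = ev l t := Iff.rfl
@[simp] theorem sat_lt (s t) (l : List M) : Sat (.lt s t) l ↔ lM (ev l s) (ev l t) := Iff.rfl
@[simp] theorem sat_imp (p q) (l : List M) : Sat (.imp p q) l ↔ (Sat p l → Sat q l) := Iff.rfl
@[simp] theorem sat_all (p) (l : List M) : Sat (.all p) l ↔ ∀ a, Sat p (l ++ [a]) := Iff.rfl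
@[simp] theorem sat_neg (p : Fm) (l : List M) : Sat p.neg l ↔ ¬ Sat p l := Iff.rfl
@[simp] theorem sat_and (p q : Fm) (l : List M) : Sat (p.and q) l ↔ Sat p l ∧ Sat q l := by
  simp [Fm.and]
@[simp] theorem sat_or (p q : Fm) (l : List M) : Sat (p.or q) l ↔ Sat p l ∨ Sat q l := by
  simp only [Fm.or, sat_imp, sat_neg]; tauto
@[simp] theorem sat_ex (p : Fm) (l : List M) : Sat p.ex l ↔ ∃ a, Sat p (l ++ [a]) := by
  simp [Fm.ex]

/-- renaming of variables (no shift under binders: levels) -/
def Fm.ren (g : ℕ → ℕ) : Fm → Fm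
  | .fal => .fal
  | .eq s t => .eq (s.relabel g) (t.relabel g)
  | .lt s t => .lt (s.relabel g) (t.relabel g)
  | .imp p q => .imp (p.ren g) (q.ren g)
  | .all p => .all (p.ren g)

theorem sat_ren_aux (g : ℕ → ℕ) (p : Fm) : ∀ (l l' : List M),
    (∀ (r : List M) i, (l ++ r).getD (g i) zM = (l' ++ r).getD i zM) →
    (Sat (p.ren g) l ↔ Sat p l') := by
  have ht : ∀ (l l' : List M), (∀ (r : List M) i, (l ++ r).getD (g i) zM = (l' ++ r).getD i zM) →
      ∀ t : LA.Term ℕ, ev l (t.relabel g) = ev l' t := by
    intro l l' h t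
    simp only [ev, Term.realize_relabel]
    congr 1
    funext i
    simpa using h [] i
  induction p with
  | fal => intro l l' _; rfl
  | eq s t => intro l l' h; simp only [Fm.ren, sat_eq, ht l l' h]
  | lt s t => intro l l' h; simp only [Fm.ren, sat_lt, ht l l' h]
  | imp p q ip iq => intro l l' h; simp only [Fm.ren, sat_imp, ip l l' h, iq l l' h]
  | all p ip =>
    intro l l' h
    simp only [Fm.ren, sat_all]
    refine forall_congr' fun a => ip _ _ fun r i => ?_
    rw [List.append_assoc, List.append_assoc]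
    exact h _ i

/-- the renaming that reads position `i < m` at `f i` and moves the rest behind position `k` -/
def mv (m k : ℕ) (f : ℕ → ℕ) (i : ℕ) : ℕ := if i < m then f i else i - m + k

theorem sat_ren (f : ℕ → ℕ) (p : Fm) (l l' : List M)
    (h : ∀ i < l'.length, f i < l.length ∧ l.getD (f i) zM = l'.getD i zM) :
    Sat (p.ren (mv l'.length l.length f)) l ↔ Sat p l' := by
  refine sat_ren_aux _ p l l' fun r i => ?_
  unfold mv
  split_ifs with hi
  · rw [List.getD_append _ _ _ _ (h i hi).1, List.getD_append _ _ _ _ hi, (h i hi).2]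
  · rw [List.getD_append_right _ _ _ _ (by omega), List.getD_append_right _ _ _ _ (by omega)]
    congr 1; omega

theorem ofFn_snoc {β : Type} {n : ℕ} (xs : Fin n → β) (a : β) :
    List.ofFn (Fin.snoc xs a : Fin (n + 1) → β) = List.ofFn xs ++ [a] := by
  rw [List.ofFn_succ', List.concat_eq_append]; simp

/-- from typed formulas: free variable `a` at position `q a`, bound variable `i` at `k + i` -/
def T1 {α : Type} (q : α → ℕ) (k : ℕ) : {n : ℕ} → LA.BoundedFormula α n → Fm
  | _, .falsum => .fal
  | _, .equal s t => .eq (s.relabel (Sum.elim q fun i => k + i.val))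
      (t.relabel (Sum.elim q fun i => k + i.val))
  | _, .rel (l := 2) Rl.lt ts => .lt ((ts 0).relabel (Sum.elim q fun i => k + i.val))
      ((ts 1).relabel (Sum.elim q fun i => k + i.val))
  | _, .imp f g => .imp (T1 q k f) (T1 q k g)
  | _, .all f => .all (T1 q k f)

theorem sat_T1 {α : Type} (q : α → ℕ) (l : List M) (hq : ∀ a, q a < l.length) {n : ℕ}
    (φ : LA.BoundedFormula α n) : ∀ xs : Fin n → M,
    Sat (T1 q l.length φ) (l ++ List.ofFn xs) ↔ φ.Realize (fun a => l.getD (q a) zM) xs := by
  have ht : ∀ {n : ℕ} (xs : Fin n → M) (t : LA.Term (α ⊕ Fin n)),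
      ev (l ++ List.ofFn xs) (t.relabel (Sum.elim q fun i => l.length + i.val)) =
      t.realize (Sum.elim (fun a => l.getD (q a) zM) xs) := by
    intro n xs t
    simp only [ev, Term.realize_relabel]
    congr 1
    funext i
    rcases i with a | i
    · simp only [Function.comp, Sum.elim_inl]
      rw [List.getD_append _ _ _ _ (hq a)]
    · simp only [Function.comp, Sum.elim_inr]
      rw [List.getD_append_right _ _ _ _ (by omega)]
      simp [List.getD_eq_getElem?_getD]
  induction φ with
  | falsum => intro xs; rfl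
  | equal s t => intro xs; simp only [T1, sat_eq, ht, BoundedFormula.Realize]
  | rel r ts =>
    intro xs
    cases r
    simp only [T1, sat_lt, ht, BoundedFormula.Realize, lM]
    refine iff_of_eq (congrArg _ ?_)
    funext i; fin_cases i <;> rfl
  | imp f g i j => intro xs; simp only [T1, sat_imp, i, j, BoundedFormula.Realize]
  | all f i =>
    intro xs
    simp only [T1, sat_all, BoundedFormula.Realize]
    refine forall_congr' fun a => ?_
    rw [← i, List.append_assoc, ofFn_snoc]

theorem enc_T1 {n : ℕ} (φ : LA.BoundedFormula Empty n) : (T1 Empty.elim 0 φ).enc = gn φ := by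
  induction φ with
  | falsum => rfl
  | equal s t => simp [T1, gn, Fm.enc]
  | rel r ts => cases r; simp [T1, gn, Fm.enc, Rl.num]
  | imp f g i j => simp [T1, gn, Fm.enc, i, j]
  | all f i => simp [T1, gn, Fm.enc, i]

theorem sat_T1_sentence (σ : LA.Sentence) : Sat (M := M) (T1 Empty.elim 0 σ) [] ↔ M ⊨ σ := by
  have := sat_T1 (M := M) Empty.elim [] (fun a => a.elim) σ default
  simp only [List.length_nil, List.ofFn_zero, List.append_nil] at this
  rw [this]
  exact iff_of_eq (congrArg (fun v => BoundedFormula.Realize σ v default) (Subsingleton.elim _ _))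

def vr (n i : ℕ) : LA.Term (Empty ⊕ Fin n) := if h : i < n then Term.var (Sum.inr ⟨i, h⟩) else zeroT

/-- to typed formulas -/
def T2 : Fm → (n : ℕ) → LA.BoundedFormula Empty n
  | .fal, _ => .falsum
  | .eq s t, n => .equal (s.subst (vr n)) (t.subst (vr n))
  | .lt s t, n => .rel Rl.lt ![s.subst (vr n), t.subst (vr n)]
  | .imp p q, n => .imp (T2 p n) (T2 q n)
  | .all p, n => .all (T2 p (n + 1))

theorem sat_T2 (p : Fm) : ∀ (n : ℕ) (xs : Fin n → M),
    (T2 p n).Realize default xs ↔ Sat p (List.ofFn xs) := by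
  have ht : ∀ {n : ℕ} (xs : Fin n → M) (t : LA.Term ℕ),
      (t.subst (vr n)).realize (Sum.elim default xs) = ev (List.ofFn xs) t := by
    intro n xs t
    simp only [ev, Term.realize_subst]
    congr 1
    funext i
    unfold vr
    split_ifs with h
    · simp [List.getD_eq_getElem?_getD, h]
    · rw [realize_zeroT, List.getD_eq_default _ _ (by simpa using h)]
  induction p with
  | fal => intro n xs; rfl
  | eq s t => intro n xs; simp only [T2, sat_eq, ht, BoundedFormula.Realize]
  | lt s t =>
    intro n xs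
    simp only [T2, sat_lt, ← ht, BoundedFormula.Realize, lM]
    refine iff_of_eq (congrArg _ ?_)
    funext i; fin_cases i <;> rfl
  | imp p q i j => intro n xs; simp only [T2, sat_imp, i, j, BoundedFormula.Realize]
  | all p i =>
    intro n xs
    simp only [T2, sat_all, BoundedFormula.Realize, i]
    refine forall_congr' fun a => ?_
    rw [ofFn_snoc]

theorem sat_T2_sentence (p : Fm) : M ⊨ (T2 p 0 : LA.Sentence) ↔ Sat (M := M) p [] := by
  have := sat_T2 (M := M) p 0 default
  simp only [List.ofFn_zero] at this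
  rw [← this]
  rfl

/-- numerals -/
def num : ℕ → M
  | 0 => zM
  | n + 1 => aM (num n) oM

theorem num_realize : True := by have := @num.eq_def; trivial

end Sem

/-- the basic axioms, with predecessor and trichotomy -/
structure QA (M : Type) [LA.Structure M] : Prop where
  a1 : ∀ x : M, aM x oM ≠ zM
  a2 : ∀ x y : M, aM x oM = aM y oM → x = y
  a3 : ∀ x : M, aM x zM = x
  a4 : ∀ x y : M, aM x (aM y oM) = aM (aM x y) oM
  a5 : ∀ x : M, mM x zM = zM
  a6 : ∀ x y : M, mM x (aM y oM) = aM (mM x y) x
  a7 : ∀ x : M, ¬ lM x zM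
  a8 : ∀ x y : M, lM x (aM y oM) ↔ lM x y ∨ x = y
  pred : ∀ x : M, x = zM ∨ ∃ y, x = aM y oM
  tri : ∀ x y : M, lM x y ∨ x = y ∨ lM y x

/-- least number principle for definable sets -/
def LNP (M : Type) [LA.Structure M] : Prop :=
  ∀ (p : Fm) (l : List M), (∃ a, ¬ Sat p (l ++ [a])) →
    ∃ a, ¬ Sat p (l ++ [a]) ∧ ∀ b, lM b a → Sat p (l ++ [b])

end Pool.Agent.MinDeg
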