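import Pool.Agent.P.MP_f8f34d_lc.Fm

/-! Models of Peano arithmetic: basic axioms and the least number principle. -/

namespace Pool.Agent.MinDeg

open FirstOrder FirstOrder.Language

variable {M : Type} [LA.Structure M]

theorem realize_close {n : ℕ} (φ : LA.Formula (Fin n)) :
    M ⊨ close φ ↔ ∀ v : Fin n → M, φ.Realize v := by
  unfold close Sentence.Realize
  rw [Formula.realize_iAlls]
  refine forall_congr' fun v => ?_
  rw [Formula.realize_relabel]
  rfl

theorem realize_indAx {n : ℕ} (φ : LA.Formula (Fin n ⊕ Unit)) :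
    M ⊨ indAx φ ↔ ∀ v : Fin n → M, φ.Realize (Sum.elim v fun _ => zM) →
      (∀ x, φ.Realize (Sum.elim v fun _ => x) → φ.Realize (Sum.elim v fun _ => aM x oM)) →
      ∀ x, φ.Realize (Sum.elim v fun _ => x) := by
  unfold indAx
  rw [realize_close]
  refine forall_congr' fun v => ?_
  have hu : ∀ P : (Unit → M) → Prop, (∀ i, P i) ↔ ∀ x, P fun _ => x := fun P =>
    ⟨fun h x => h _, fun h i => h (i ())⟩
  have h1 : ∀ (ψ : LA.Formula (Fin n ⊕ Unit)), BoundedFormula.Realize (Formula.iAlls Unit ψ) v
      default ↔ ∀ x, ψ.Realize (Sum.elim v fun _ => x) := fun ψ =>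
    (Formula.realize_iAlls (φ := ψ) (v := v)).trans (hu fun i => ψ.Realize (Sum.elim v i))
  unfold Formula.Realize
  rw [BoundedFormula.realize_imp, BoundedFormula.realize_imp, h1, h1,
    BoundedFormula.realize_subst]
  refine imp_congr (iff_of_eq (congrArg (fun w => BoundedFormula.Realize φ w default) ?_))
    (imp_congr (forall_congr' fun x => ?_) Iff.rfl)
  · funext a
    rcases a with a | a <;> simp
  · unfold Formula.Realize
    rw [BoundedFormula.realize_imp, BoundedFormula.realize_subst]
    refine imp_congr Iff.rfl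
      (iff_of_eq (congrArg (fun w => BoundedFormula.Realize φ w default) ?_))
    funext a
    rcases a with a | a <;> simp

/-- induction for definable sets -/
def IND (M : Type) [LA.Structure M] : Prop :=
  ∀ (p : Fm) (l : List M), Sat p (l ++ [zM]) →
    (∀ a, Sat p (l ++ [a]) → Sat p (l ++ [aM a oM])) → ∀ a, Sat p (l ++ [a])

theorem ind_iff : IND M ↔ ∀ (n : ℕ) (φ : LA.Formula (Fin n ⊕ Unit)), M ⊨ indAx φ := by
  constructor
  · intro h n φ
    rw [realize_indAx]
    intro v
    let q : Fin n ⊕ Unit → ℕ := Sum.elim Fin.val fun _ => n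
    have key : ∀ x : M, Sat (T1 q (n + 1) φ) (List.ofFn v ++ [x]) ↔
        φ.Realize (Sum.elim v fun _ => x) := fun x => by
      have h1 := sat_T1 q (List.ofFn v ++ [x]) (by
        rintro (a | a)
        · have := a.2
          simp [q]
        · simp [q]) φ default
      simp only [List.ofFn_zero, List.append_nil, List.length_append, List.length_ofFn,
        List.length_cons, List.length_nil, Nat.zero_add] at h1
      rw [h1]
      refine iff_of_eq (congrArg (fun w => BoundedFormula.Realize φ w default) ?_)
      funext a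
      rcases a with a | a
      · simp only [q, Sum.elim_inl]
        rw [List.getD_append _ _ _ _ (by simp)]
        simp [List.getD_eq_getElem?_getD]
      · simp only [q, Sum.elim_inr]
        rw [List.getD_append_right _ _ _ _ (by simp)]
        simp
    simp only [← key]
    exact h _ _
  · intro h p l
    let g : Empty ⊕ Fin (l.length + 1) → Fin l.length ⊕ Unit :=
      Sum.elim Empty.elim (Fin.lastCases (Sum.inr ()) Sum.inl)
    have h1 := (realize_indAx _).1
      (h l.length (Formula.relabel g (T2 p (l.length + 1)).toFormula)) l.get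
    have key : ∀ x : M, (Formula.relabel g (T2 p (l.length + 1)).toFormula).Realize
        (Sum.elim l.get fun _ => x) ↔ Sat p (l ++ [x]) := fun x => by
      rw [Formula.realize_relabel, BoundedFormula.realize_toFormula,
        Subsingleton.elim (_ ∘ Sum.inl) default, sat_T2]
      refine iff_of_eq (congrArg _ ?_)
      rw [List.ofFn_succ', List.concat_eq_append]
      simp [g]
    simpa only [key] using h1

theorem lnp_of_ind (h : IND M) (a7 : ∀ x : M, ¬ lM x zM)
    (a8 : ∀ x y : M, lM x (aM y oM) ↔ lM x y ∨ x = y) : LNP M := by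
  intro p l ⟨a, ha⟩
  by_contra hc
  have h1 : ∀ a, (∀ b, lM b a → Sat p (l ++ [b])) → Sat p (l ++ [a]) := fun a hb => by
    by_contra h2
    exact hc ⟨a, h2, hb⟩
  let f : ℕ → ℕ := fun i => if i < l.length then i else l.length + 1
  let p' : Fm := .all (.imp (.lt (Term.var (l.length + 1)) (Term.var l.length))
    (p.ren (mv (l.length + 1) (l.length + 2) f)))
  have key : ∀ a, Sat p' (l ++ [a]) ↔ ∀ b, lM b a → Sat p (l ++ [b]) := fun a => by
    simp only [p', sat_all, sat_imp, sat_lt, ev_var]
    refine forall_congr' fun b => imp_congr (iff_of_eq ?_) ?_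
    · rw [List.getD_append_right _ _ _ _ (by simp), List.getD_append _ _ _ _ (by simp),
        List.getD_append_right _ _ _ _ (by simp)]
      simp
    · have h2 := sat_ren f p (l ++ [a] ++ [b]) (l ++ [b]) fun i hi => by
        simp only [List.length_append, List.length_cons, List.length_nil] at hi ⊢
        simp only [f]
        split_ifs with h3
        · refine ⟨by omega, ?_⟩
          rw [List.append_assoc, List.getD_append _ _ _ _ h3, List.getD_append _ _ _ _ h3]
        · refine ⟨by omega, ?_⟩
          rw [List.getD_append_right _ _ _ _ (by simp), List.getD_append_right _ _ _ _ (by omega),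
            show i - l.length = 0 by omega]
          simp
      simpa using h2
  have h3 := h p' l ((key _).2 fun b hb => (a7 b hb).elim) (fun a h4 => (key _).2 fun b hb => by
    rcases (a8 _ _).1 hb with h5 | rfl
    · exact (key _).1 h4 b h5
    · exact h1 _ ((key _).1 h4)) a
  exact ha (h1 _ ((key _).1 h3))

theorem model_PA_iff (M : Type) [LA.Structure M] [Nonempty M] : M ⊨ PA ↔ QA M ∧ LNP M := by
  have hb : (∀ φ ∈ basic (Term.var 0) (Term.var 1), M ⊨ close φ) ↔ ∀ x y : M,
      aM x oM ≠ zM ∧ (aM x oM = aM y oM → x = y) ∧ aM x zM = x ∧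
      aM x (aM y oM) = aM (aM x y) oM ∧ mM x zM = zM ∧ mM x (aM y oM) = aM (mM x y) x ∧
      ¬ lM x zM ∧ (lM x (aM y oM) ↔ lM x y ∨ x = y) := by
    simp only [basic, List.forall_mem_cons, realize_close, List.not_mem_nil, false_imp_iff,
      implies_true, and_true, ← forall_and]
    simp only [Formula.realize_not, Formula.realize_imp, Formula.realize_equal,
      Formula.realize_iff, Formula.realize_sup, realize_ltF, realize_addT, realize_mulT,
      realize_zeroT, realize_oneT, Term.realize_var]
    exact ⟨fun h x y => h ![x, y], fun h v => h (v 0) (v 1)⟩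
  have hp : M ⊨ PA ↔ (∀ φ ∈ basic (Term.var 0) (Term.var 1), M ⊨ close φ) ∧ IND M := by
    rw [Theory.model_iff, ind_iff]
    constructor
    · exact fun h => ⟨fun φ hφ => h _ (Or.inl ⟨φ, hφ, rfl⟩), fun n φ => h _ (Or.inr ⟨n, φ, rfl⟩)⟩
    · rintro h _ (⟨φ, hφ, rfl⟩ | ⟨n, φ, rfl⟩)
      · exact h.1 φ hφ
      · exact h.2 n φ
  rw [hp, hb]
  constructor
  · rintro ⟨h, hi⟩
    have a7 : ∀ x : M, ¬ lM x zM := fun x => (h x x).2.2.2.2.2.2.1
    have a8 : ∀ x y : M, lM x (aM y oM) ↔ lM x y ∨ x = y := fun x y => (h x y).2.2.2.2.2.2.2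
    have z0 : ∀ x : M, zM = x ∨ lM zM x := fun x => by
      have := hi (.or (.eq zeroT (Term.var 0)) (.lt zeroT (Term.var 0))) [] (by simp)
        (fun a ha => by
          simp only [List.nil_append, sat_or, sat_eq, sat_lt, ev_zero, ev_var,
            List.getD_cons_zero] at ha ⊢
          exact Or.inr ((a8 _ _).2 ha.symm)) x
      simpa using this
    have s1 : ∀ x y : M, lM x y → lM (aM x oM) y ∨ aM x oM = y := fun x y => by
      have := hi (.imp (.lt (Term.var 0) (Term.var 1))
        (.or (.lt (addT (Term.var 0) oneT) (Term.var 1))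
          (.eq (addT (Term.var 0) oneT) (Term.var 1)))) [x] (by simp [a7])
        (fun a ha => by
          simp only [List.cons_append, List.nil_append, sat_imp, sat_or, sat_eq, sat_lt, ev_add,
            ev_one, ev_var, List.getD_cons_zero, List.getD_cons_succ] at ha ⊢
          intro h1
          rcases (a8 _ _).1 h1 with h2 | rfl
          · exact Or.inl ((a8 _ _).2 (ha h2))
          · exact Or.inr rfl) y
      simpa using this
    refine ⟨⟨fun x => (h x x).1, fun x y => (h x y).2.1, fun x => (h x x).2.2.1,
      fun x y => (h x y).2.2.2.1, fun x => (h x x).2.2.2.2.1, fun x y => (h x y).2.2.2.2.2.1,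
      a7, a8, fun x => ?_, fun x y => ?_⟩, lnp_of_ind hi a7 a8⟩
    · have := hi (.or (.eq (Term.var 0) zeroT)
        (.ex (.eq (Term.var 0) (addT (Term.var 1) oneT)))) [] (by simp)
        (fun a _ => by
          simp only [List.cons_append, List.nil_append, sat_or, sat_ex, sat_eq, ev_add,
            ev_one, ev_var, List.getD_cons_zero, List.getD_cons_succ]
          exact Or.inr ⟨a, rfl⟩) x
      simpa using this
    · have := hi (.or (.lt (Term.var 0) (Term.var 1)) (.or (.eq (Term.var 0) (Term.var 1))
        (.lt (Term.var 1) (Term.var 0)))) [x]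
        (by
          simp only [List.cons_append, List.nil_append, sat_or, sat_eq, sat_lt, ev_var,
            List.getD_cons_zero, List.getD_cons_succ]
          exact Or.inr ((z0 x).imp Eq.symm id))
        (fun a ha => by
          simp only [List.cons_append, List.nil_append, sat_or, sat_eq, sat_lt, ev_var,
            List.getD_cons_zero, List.getD_cons_succ] at ha ⊢
          rcases ha with h1 | h1 | h1
          · exact Or.inl ((a8 _ _).2 (Or.inl h1))
          · exact Or.inl ((a8 _ _).2 (Or.inr h1))
          · exact Or.inr ((s1 _ _ h1).symm.imp Eq.symm id)) y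
      simpa using this
  · rintro ⟨h, hl⟩
    refine ⟨fun x y => ⟨h.a1 x, h.a2 x y, h.a3 x, h.a4 x y, h.a5 x, h.a6 x y, h.a7 x, h.a8 x y⟩,
      fun p l h0 hs a => ?_⟩
    by_contra ha
    obtain ⟨b, hb1, hb2⟩ := hl p l ⟨a, ha⟩
    rcases h.pred b with rfl | ⟨y, rfl⟩
    · exact hb1 h0
    · exact hb1 (hs _ (hb2 _ ((h.a8 _ _).2 (Or.inr rfl))))

end Pool.Agent.MinDeg
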