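import Pool.Agent.P.MP_f8f34d_lc.Fm
import Pool.Agent.Lib.MRDP.Basic

/-! A Rosser formula that separates two recursively inseparable sets in all models of `QA`. -/

namespace Pool.Agent.MinDeg

open FirstOrder FirstOrder.Language

section Num

variable {M : Type} [LA.Structure M]

theorem rep_num_add (h : QA M) (a b : ℕ) : (num (a + b) : M) = aM (num a) (num b) := by
  induction b with
  | zero => exact (h.a3 _).symm
  | succ b ih =>
    show aM (num (a + b)) oM = aM (num a) (aM (num b) oM)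
    rw [h.a4, ih]

theorem rep_num_mul (h : QA M) (a b : ℕ) : (num (a * b) : M) = mM (num a) (num b) := by
  induction b with
  | zero => exact (h.a5 _).symm
  | succ b ih =>
    show num (a * b + a) = mM (num a) (aM (num b) oM)
    rw [h.a6, rep_num_add h, ih]

theorem rep_num_inj (h : QA M) : ∀ a b : ℕ, (num a : M) = num b → a = b
  | 0, 0, _ => rfl
  | 0, _ + 1, e => absurd e.symm (h.a1 _)
  | _ + 1, 0, e => absurd e (h.a1 _)
  | a + 1, b + 1, e => by rw [rep_num_inj h a b (h.a2 _ _ e)]

theorem rep_lt_num (h : QA M) (x : M) (n : ℕ) : lM x (num n) ↔ ∃ k < n, x = num k := by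
  induction n with
  | zero => simpa [num] using h.a7 x
  | succ n ih =>
    show lM x (aM (num n) oM) ↔ _
    rw [h.a8, ih]
    constructor
    · rintro (⟨k, hk, e⟩ | e)
      · exact ⟨k, by omega, e⟩
      · exact ⟨n, by omega, e⟩
    · rintro ⟨k, hk, e⟩
      rcases Nat.lt_succ_iff_lt_or_eq.1 hk with hk | rfl
      · exact Or.inl ⟨k, hk, e⟩
      · exact Or.inr e

/-- iterated bounded existential quantifier: bound at position `j`, context of length `k` -/
def repBex (j : ℕ) (p : Fm) : ℕ → ℕ → Fm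
  | _, 0 => p
  | k, n + 1 => .ex (.and (.lt (Term.var k) (Term.var j)) (repBex j p (k + 1) n))

theorem rep_sat_bex (h : QA M) (j w : ℕ) (p : Fm) : ∀ (n : ℕ) (l : List M), j < l.length →
    l.getD j zM = num w → (Sat (repBex j p l.length n) l ↔
      ∃ Y : List ℕ, Y.length = n ∧ (∀ y ∈ Y, y < w) ∧ Sat p (l ++ Y.map num)) := by
  intro n
  induction n with
  | zero =>
    intro l _ _
    constructor
    · intro hs; exact ⟨[], rfl, by simp, by simpa [repBex] using hs⟩
    · rintro ⟨Y, hY, -, hs⟩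
      rw [List.length_eq_zero_iff.1 hY] at hs
      simpa [repBex] using hs
  | succ n ih =>
    intro l hj hw
    have key : ∀ a : M, (Sat (repBex j p (l.length + 1) n) (l ++ [a]) ↔
        ∃ Y : List ℕ, Y.length = n ∧ (∀ y ∈ Y, y < w) ∧ Sat p (l ++ [a] ++ Y.map num)) := by
      intro a
      have := ih (l ++ [a]) (by simp; omega) (by rw [List.getD_append _ _ _ _ hj, hw])
      simpa only [List.length_append, List.length_singleton] using this
    have e1 : ∀ a : M, (l ++ [a]).getD l.length zM = a := by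
      intro a
      rw [List.getD_append_right _ _ _ _ le_rfl]; simp
    have e2 : ∀ a : M, (l ++ [a]).getD j zM = num w := by
      intro a
      rw [List.getD_append _ _ _ _ hj, hw]
    simp only [repBex, sat_ex, sat_and, sat_lt, ev_var, key, e1, e2, rep_lt_num h]
    constructor
    · rintro ⟨a, ⟨k, hk, rfl⟩, Y, hY, hb, hs⟩
      refine ⟨k :: Y, by simp [hY], ?_, by simpa using hs⟩
      intro y hy
      rcases List.mem_cons.1 hy with rfl | hy
      · exact hk
      · exact hb y hy
    · rintro ⟨Y, hY, hb, hs⟩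
      rcases Y with _ | ⟨k, Y⟩
      · simp at hY
      · refine ⟨num k, ⟨k, hb k (by simp), rfl⟩, Y, by simpa using hY,
          fun y hy => hb y (by simp [hy]), by simpa using hs⟩

end Num

/-- the term `s` computes `f` on numerals -/
def RepTm (s : LA.Term ℕ) (f : (ℕ → ℕ) → ℕ) : Prop :=
  ∀ (M : Type) [LA.Structure M], QA M → ∀ t : ℕ → ℕ,
    s.realize (fun i => (num (t i) : M)) = num (f t)

theorem repTm_const (n : ℕ) : ∃ s, RepTm s fun _ => n := by
  induction n with
  | zero => exact ⟨zeroT, fun M _ _ t => realize_zeroT _⟩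
  | succ n ih =>
    obtain ⟨s, hs⟩ := ih
    refine ⟨addT s oneT, fun M _ h t => ?_⟩
    rw [realize_addT, realize_oneT, hs M h t]; rfl

theorem RepTm.add {s s' f f'} (h : RepTm s f) (h' : RepTm s' f') :
    RepTm (addT s s') fun t => f t + f' t := fun M _ q t => by
  rw [realize_addT, h M q t, h' M q t, rep_num_add q]

theorem RepTm.mul {s s' f f'} (h : RepTm s f) (h' : RepTm s' f') :
    RepTm (mulT s s') fun t => f t * f' t := fun M _ q t => by
  rw [realize_mulT, h M q t, h' M q t, rep_num_mul q]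

theorem rep_poly {F : (ℕ → ℕ) → ℤ} (hF : IsPoly F) :
    ∃ s s' f f', RepTm s f ∧ RepTm s' f' ∧ ∀ t, F t = (f t : ℤ) - f' t := by
  induction hF with
  | proj i =>
    obtain ⟨s, hs⟩ := repTm_const 0
    exact ⟨Term.var i, s, fun t => t i, _, fun M _ _ t => rfl, hs, fun t => by simp⟩
  | const n =>
    obtain ⟨s, hs⟩ := repTm_const n.toNat
    obtain ⟨s', hs'⟩ := repTm_const (-n).toNat
    exact ⟨s, s', _, _, hs, hs', fun t => (Int.toNat_sub_toNat_neg n).symm⟩
  | sub _ _ i j =>
    obtain ⟨a, a', f, f', h1, h2, h3⟩ := i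
    obtain ⟨b, b', g, g', h4, h5, h6⟩ := j
    exact ⟨_, _, _, _, h1.add h5, h2.add h4, fun t => by beta_reduce; rw [h3, h6]; push_cast; ring⟩
  | mul _ _ i j =>
    obtain ⟨a, a', f, f', h1, h2, h3⟩ := i
    obtain ⟨b, b', g, g', h4, h5, h6⟩ := j
    exact ⟨_, _, _, _, (h1.mul h4).add (h2.mul h5), (h1.mul h5).add (h2.mul h4),
      fun t => by beta_reduce; rw [h3, h6]; push_cast; ring⟩

theorem rep_bound {F : (ℕ → ℕ) → ℤ} (hF : IsPoly F) :
    ∃ n, ∀ t t' : ℕ → ℕ, (∀ i ≤ n, t i = t' i) → F t = F t' := by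
  induction hF with
  | proj i => exact ⟨i, fun t t' h => by beta_reduce; rw [h i le_rfl]⟩
  | const n => exact ⟨0, fun _ _ _ => rfl⟩
  | sub _ _ i j =>
    obtain ⟨n, h1⟩ := i
    obtain ⟨m, h2⟩ := j
    exact ⟨n + m, fun t t' h => by
      beta_reduce
      rw [h1 t t' fun i hi => h i (by omega), h2 t t' fun i hi => h i (by omega)]⟩
  | mul _ _ i j =>
    obtain ⟨n, h1⟩ := i
    obtain ⟨m, h2⟩ := j
    exact ⟨n + m, fun t t' h => by
      beta_reduce
      rw [h1 t t' fun i hi => h i (by omega), h2 t t' fun i hi => h i (by omega)]⟩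

/-- an enumerable set has an absolute witness relation: argument at position `0`, witness at
position `k`, the last one -/
theorem rep_re {p : ℕ → Prop} (hp : REPred p) (k : ℕ) :
    ∃ (φ : Fm) (R : ℕ → ℕ → Prop), (∀ c, p c ↔ ∃ w, R c w) ∧
      ∀ (M : Type) [LA.Structure M], QA M → ∀ (l : List M) (c w : ℕ), l.length = k + 1 →
        l.getD 0 zM = num c → l.getD k zM = num w → (Sat φ l ↔ R c w) := by
  obtain ⟨P, hP⟩ := Pool.Agent.Lib.MRDP.re_poly hp
  obtain ⟨s, s', f, f', hs, hs', hf⟩ := rep_poly P.isPoly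
  obtain ⟨n, hn⟩ := rep_bound P.isPoly
  let r : ℕ → ℕ := fun i => if i = 0 then 0 else i + k
  refine ⟨repBex k (.eq (s.relabel r) (s'.relabel r)) (k + 1) n,
    fun c w => ∃ Y : List ℕ, Y.length = n ∧ (∀ y ∈ Y, y < w) ∧
      P (fun i => (c :: Y).getD i 0) = 0, fun c => ?_, fun M _ h l c w hl h0 hk => ?_⟩
  · rw [hP]
    constructor
    · rintro ⟨t, rfl, ht⟩
      refine ⟨((List.range n).map fun i => t (i + 1)).sum + 1,
        (List.range n).map fun i => t (i + 1), by simp, fun y hy =>
          Nat.lt_succ_of_le (List.single_le_sum (fun _ _ => Nat.zero_le _) y hy), ?_⟩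
      rw [← ht]
      refine hn _ _ fun i hi => ?_
      rcases i with _ | i
      · rfl
      · have hi' : i < n := hi
        simp [List.getD_eq_getElem?_getD, hi']
    · rintro ⟨w, Y, -, -, hY⟩
      exact ⟨_, rfl, hY⟩
  · have := rep_sat_bex h k w (.eq (s.relabel r) (s'.relabel r)) n l (by omega) hk
    rw [hl] at this
    rw [this]
    refine exists_congr fun Y => and_congr_right fun _ => and_congr_right fun _ => ?_
    have hv : ∀ i, (l ++ Y.map num).getD (r i) zM = (num ((c :: Y).getD i 0) : M) := by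
      intro i
      rcases i with _ | i
      · show (l ++ Y.map num).getD 0 zM = _
        rw [List.getD_append _ _ _ _ (by omega), h0]; rfl
      · show (l ++ Y.map num).getD (i + 1 + k) zM = _
        rw [List.getD_append_right _ _ _ _ (by omega), hl,
          (by omega : i + 1 + k - (k + 1) = i), List.getD_cons_succ]
        exact List.getD_map Y 0 num
    have he : ∀ u : LA.Term ℕ, ev (l ++ Y.map num) (u.relabel r) =
        u.realize fun i => (num ((c :: Y).getD i 0) : M) := by
      intro u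
      simp only [ev, Term.realize_relabel]
      congr 1
      funext i
      exact hv i
    rw [sat_eq, he, he, hs M h, hs' M h, hf, sub_eq_zero, Nat.cast_inj]
    exact ⟨rep_num_inj h _ _, fun e => by rw [e]⟩

theorem rep_eval_re (b : ℕ) :
    REPred fun c : ℕ => b ∈ (Denumerable.ofNat Nat.Partrec.Code c).eval c := by
  have h1 : Partrec fun c : ℕ => (Denumerable.ofNat Nat.Partrec.Code c).eval c :=
    Nat.Partrec.Code.eval_part.comp (Computable.ofNat _) Computable.id
  have h2 : Computable fun q : ℕ × ℕ => if q.2 = b then some () else none :=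
    (Primrec.ite (Primrec.eq.comp Primrec.snd (Primrec.const b)) (Primrec.const _)
      (Primrec.const _)).to_comp
  have h3 := (h1.bind (Computable.ofOption h2).to₂).dom_re
  refine h3.of_eq fun c => ?_
  rw [Part.dom_iff_mem]
  constructor
  · rintro ⟨u, hu⟩
    obtain ⟨v, hv, hu⟩ := Part.mem_bind_iff.1 hu
    by_cases e : v = b
    · exact e ▸ hv
    · simp [e] at hu
  · intro hb
    exact ⟨(), Part.mem_bind_iff.2 ⟨b, hb, by simp⟩⟩

theorem rosser : ∃ φ : Fm, ∀ (M : Type) [LA.Structure M], QA M → ∀ c : ℕ,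
    (0 ∈ (Denumerable.ofNat Nat.Partrec.Code c).eval c → Sat (M := M) φ [num c]) ∧
    (1 ∈ (Denumerable.ofNat Nat.Partrec.Code c).eval c → ¬ Sat (M := M) φ [num c]) := by
  obtain ⟨A, RA, hA, sA⟩ := rep_re (rep_eval_re 0) 1
  obtain ⟨B, RB, hB, sB⟩ := rep_re (rep_eval_re 1) 2
  refine ⟨.ex (.and A (.all (.imp (.lt (Term.var 2) (Term.var 1)) B.neg))), fun M _ h c => ?_⟩
  have hne : 0 ∈ (Denumerable.ofNat Nat.Partrec.Code c).eval c →
      ¬ 1 ∈ (Denumerable.ofNat Nat.Partrec.Code c).eval c := fun h0 h1 =>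
    absurd (Part.mem_unique h0 h1) (by decide)
  have hs : Sat (M := M) (.ex (.and A (.all (.imp (.lt (Term.var 2) (Term.var 1)) B.neg))))
      [num c] ↔ ∃ a : M, Sat A [num c, a] ∧ ∀ b : M, lM b a → ¬ Sat B [num c, a, b] := by
    simp
  rw [hs]
  constructor
  · intro h0
    obtain ⟨w, hw⟩ := (hA c).1 h0
    refine ⟨num w, (sA M h _ c w rfl rfl rfl).2 hw, fun b hb hB' => ?_⟩
    obtain ⟨k, -, rfl⟩ := (rep_lt_num h b w).1 hb
    exact hne h0 ((hB c).2 ⟨k, (sB M h _ c k rfl rfl rfl).1 hB'⟩)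
  · rintro h1 ⟨a, ha, hb⟩
    obtain ⟨w, hw⟩ := (hB c).1 h1
    have hstd : ∀ k : ℕ, a ≠ num k := by
      rintro k rfl
      exact hne ((hA c).2 ⟨k, (sA M h _ c k rfl rfl rfl).1 ha⟩) h1
    rcases h.tri a (num w) with e | e | e
    · obtain ⟨k, -, e⟩ := (rep_lt_num h a w).1 e
      exact hstd k e
    · exact hstd w e
    · exact hb _ e ((sB M h _ c w rfl rfl rfl).2 hw)

end Pool.Agent.MinDeg
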