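import Pool.Agent.P.MP_f8f34d_lc.Deg
import Pool.Agent.P.MP_f8f34d_lc.Rep
import Pool.Agent.P.MP_f8f34d_lc.PAm

/-! Assembly. -/

namespace Pool.Agent.MinDeg

open FirstOrder FirstOrder.Language Pool.Agent.Lib.ComputableProp

theorem Tab.not_computable {x : CS} (T : Tab x) : ¬ Computable x := by
  obtain ⟨φ, hφ⟩ := rosser
  have hN := c_numN
  have h0 : Computable (fun c : ℕ => ix φ.enc [numN c]) := by fun_prop
  intro hx
  have hD : Computable (fun c : ℕ => cond (x (ix φ.enc [numN c])) 1 0) :=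
    c_cond (hx.comp h0) (Computable.const _) (Computable.const _)
  obtain ⟨c, hc⟩ := Nat.Partrec.Code.exists_code.1 (Partrec.nat_iff.1 hD.partrec)
  obtain ⟨h0, h1⟩ := @hφ ℕ (A x) T.qa (Encodable.encode c)
  have ht := T.truth φ [numN (Encodable.encode c)]
  rw [List.map_singleton, ← T.num_eq] at ht
  rw [Denumerable.ofNat_encode, hc, ht] at h0 h1
  cases h : x (ix φ.enc [numN (Encodable.encode c)]) <;> simp [h] at h0 h1

theorem re_of_rePred {p : ℕ → Prop} (h : REPred p) : RE p :=
  ((re_of_partrec h).comp (f := fun n : ℕ => (n, ())) (by fun_prop)).of_iff fun n => by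
    simp [Part.mem_assert_iff]

theorem main (U : LA.Theory) (hU : CE U) (hsat : (PA ∪ U).IsSatisfiable) :
    ¬ Set.Countable {T : LA.Theory | T.IsMaximal ∧ PA ∪ U ⊆ T ∧ T ≠ TA ∧
      degT T ∈ degrees T ∧ ∀ e ∈ degrees T, ¬ e < degT T} := by
  intro hc
  let X : CS → Prop := fun x => Tab x ∧ ∀ n, (∃ σ ∈ U, gn σ = n) → x (ix n []) = true
  have hX : PiC X := pi_tab.and (pi_ax (re_of_rePred hU))
  have hne : ∃ x, X x := by
    obtain ⟨M⟩ := hsat
    have hM : M ⊨ PA ∪ U := M.is_model
    obtain ⟨h1, h2⟩ := (model_PA_iff M).1 (hM.mono Set.subset_union_left)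
    obtain ⟨x, T, hx⟩ := exists_tab h1 h2
    refine ⟨x, T, ?_⟩
    rintro n ⟨σ, hσ, rfl⟩
    rw [← enc_T1, hx, sat_T1_sentence]
    exact hM.realize_of_mem σ (Or.inr hσ)
  have hf := force (P := fun x _ => ¬ X x) hX (by simpa using hne)
    (fun x hx => (not_not.1 hx).1.not_computable) Th measurableSet_th
    (fun x x' y hx hx' h h' => (not_not.1 hx).1.inj (not_not.1 hx').1
      fun p => (h p).trans (h' p).symm)
  let th : CS → LA.Theory := fun x => @completeTheory LA ℕ (A x)
  have hth : ∀ x, Tab x → ∀ p : Fm, T2 p 0 ∈ th x ↔ x (ix p.enc []) = true := by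
    intro x T p
    rw [← T.truth0, ← @sat_T2_sentence ℕ (A x)]
    rfl
  refine hf (Set.MapsTo.countable_of_injOn (f := th) (t := insert TA _) ?_ ?_ (hc.insert TA))
  · rintro x ⟨hx, hg⟩
    obtain ⟨T, hU'⟩ := not_not.1 hx
    by_cases hTA : th x = TA
    · exact Or.inl hTA
    let _ := A x
    have hθ : ∀ B : LA.Structure ℕ, @Theory.Model LA ℕ B (th x) → Th x (dg B) := by
      intro B hB p
      rw [tr_dg, ← hth x T, ← @sat_T2_sentence ℕ B]
      refine ⟨fun h => @Theory.realize_sentence_of_mem LA ℕ B _ hB _ h, fun h => ?_⟩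
      by_contra hn
      exact @Theory.realize_sentence_of_mem LA ℕ B _ hB (T2 p 0).not hn h
    refine Or.inr ⟨completeTheory.isMaximal LA ℕ, ?_, hTA,
      ⟨A x, model_completeTheory, ?_⟩, ?_⟩
    · rintro σ (h | h)
      · exact ((model_PA_iff ℕ).2 ⟨T.qa, T.lnp⟩).realize_of_mem σ h
      · have := hU' _ ⟨σ, h, rfl⟩
        rw [← enc_T1, ← T.truth0, sat_T1_sentence] at this
        exact this
    · rw [deg_eq, degT_eq]
      exact le_antisymm (show TuringReducible _ _ from T.dg_le.trans T.le_tg)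
        (show TuringReducible _ _ from
          T.tg_le.trans (hg _ (hθ _ model_completeTheory) T.dg_le))
    · rintro _ ⟨B, hB, rfl⟩ hlt
      rw [deg_eq, degT_eq] at hlt
      have h1 : TuringReducible (hat (dg B)) (hat (tg (th x))) := hlt.le
      exact hlt.not_ge (show TuringReducible (hat (tg (th x))) (hat (dg B)) from
        T.tg_le.trans (hg _ (hθ B hB) (h1.trans T.tg_le)))
  · intro x hx y hy h
    have T := (not_not.1 hx.1).1
    have T' := (not_not.1 hy.1).1
    exact T.inj T' fun p => by rw [← hth x T, ← hth y T', h]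

end Pool.Agent.MinDeg
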