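import Pool.Agent.P.MP_f8f34d_lc.Tab

/-! The model on `ℕ` read off a truth table. -/

namespace Pool.Agent.MinDeg

open FirstOrder FirstOrder.Language

/-- `v` is the least counterexample to `P`, or zero if there is none -/
def Least {M : Type} [LA.Structure M] (P : M → Prop) (v : M) : Prop :=
  (¬ P v ∧ ∀ b, lM b v → P b) ∨ ((∀ b, P b) ∧ v = zM)

theorem Least.unique {M : Type} [LA.Structure M] (h : QA M) {P : M → Prop} {v w : M}
    (hv : Least P v) (hw : Least P w) : v = w := by
  rcases hv with ⟨h1, h2⟩ | ⟨h1, h2⟩ <;> rcases hw with ⟨k1, k2⟩ | ⟨k1, k2⟩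
  · rcases h.tri v w with t | t | t
    · exact absurd (k2 v t) h1
    · exact t
    · exact absurd (h2 w t) k1
  · exact absurd (k1 v) h1
  · exact absurd (h1 w) k1
  · rw [h2, k2]

def Rep (x : CS) (r : ℕ) : Prop := ∀ a < r, x (eqI a r) = false
noncomputable def rp (x : CS) (a : ℕ) : ℕ := sInf {r | x (eqI r a) = true}
noncomputable def el (x : CS) (k : ℕ) : ℕ := Nat.nth (Rep x) k
open Classical in
noncomputable def ind (x : CS) (a : ℕ) : ℕ := Nat.count (Rep x) (rp x a)

/-- the model of a table -/
@[instance_reducible] noncomputable def A (x : CS) : LA.Structure ℕ where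
  funMap {n} (f : Fn n) v := match f with
    | .zero => ind x 0
    | .one => ind x oneN
    | .add => ind x (addN (el x (v 0)) (el x (v 1)))
    | .mul => ind x (mulN (el x (v 0)) (el x (v 1)))
  RelMap {n} (r : Rl n) v := match r with
    | .lt => x (ltI (el x (v 0)) (el x (v 1))) = true

namespace Tab

variable {x : CS} (T : Tab x)
include T

theorem symm {a b : ℕ} (h : x (eqI a b) = true) : x (eqI b a) = true := T.eucl a b a h (T.refl a)

theorem trans {a b c : ℕ} (h : x (eqI a b) = true) (k : x (eqI b c) = true) :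
    x (eqI a c) = true := T.eucl b a c (T.symm h) k

theorem rp_eq (a : ℕ) : x (eqI (rp x a) a) = true :=
  Nat.sInf_mem (s := {r | x (eqI r a) = true}) ⟨a, T.refl a⟩

theorem rep_rp (a : ℕ) : Rep x (rp x a) := by
  intro b hb
  by_contra h
  exact Nat.notMem_of_lt_sInf hb (T.trans (by simpa using h) (T.rp_eq a))

theorem rp_congr {a b : ℕ} (h : x (eqI a b) = true) : rp x a = rp x b := by
  unfold rp
  congr 1
  ext r
  exact ⟨fun k => T.trans k h, fun k => T.trans k (T.symm h)⟩

theorem rp_of_rep {r : ℕ} (h : Rep x r) : rp x r = r := by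
  refine le_antisymm (Nat.sInf_le (T.refl r)) (not_lt.1 fun hlt => ?_)
  have := h _ hlt
  rw [T.rp_eq] at this
  exact absurd this (by simp)

theorem el_ind (a : ℕ) : el x (ind x a) = rp x a := by
  exact @Nat.nth_count (Rep x) (fun _ => Classical.propDecidable _) _ (T.rep_rp a)

theorem el_ind_eq (a : ℕ) : x (eqI (el x (ind x a)) a) = true := by
  rw [T.el_ind]; exact T.rp_eq a

theorem ind_eq_iff (a b : ℕ) : ind x a = ind x b ↔ x (eqI a b) = true := by
  constructor
  · intro h
    have := T.el_ind_eq a
    rw [h] at this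
    exact T.eucl _ _ _ this (T.el_ind_eq b)
  · intro h
    unfold ind
    rw [T.rp_congr h]

theorem n1 (a : ℕ) : x (eqI (addN a oneN) 0) ≠ true := by
  intro h
  have h1 := T.inst _ a [] (T.gam g1.enc (List.mem_map_of_mem (by simp [Gam])))
  have h2 := (T.imp _ _ _).1 h1 (by
    have := T.eq (code (addT (Term.var 0) oneT)) (code zeroT) ([] ++ [a])
    rw [tv_add, tv_var, tv_one, tv_zero] at this
    exact this.trans h)
  exact absurd (h2.symm.trans (T.fal _)) (by simp)

theorem n2 (a b : ℕ) (h : x (eqI (addN a oneN) (addN b oneN)) = true) : x (eqI a b) = true := by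
  have h1 := T.inst _ b _ (T.inst _ a [] (T.gam g2.enc (List.mem_map_of_mem (by simp [Gam]))))
  exact (T.imp _ _ _).1 h1 (by
    have := T.eq (code (addT (Term.var 0) oneT)) (code (addT (Term.var 1) oneT)) ([] ++ [a] ++ [b])
    rw [tv_add, tv_add, tv_var, tv_var, tv_one] at this
    exact this.trans h)

theorem numN_inj : ∀ m n, x (eqI (numN m) (numN n)) = true → m = n := by
  intro m
  induction m with
  | zero =>
    intro n h
    cases n with
    | zero => rfl
    | succ n => rw [numN_succ] at h; exact absurd (T.symm h) (T.n1 _)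
  | succ m ih =>
    intro n h
    cases n with
    | zero => rw [numN_succ] at h; exact absurd h (T.n1 _)
    | succ n => rw [numN_succ, numN_succ] at h; rw [ih n (T.n2 _ _ h)]

theorem inf : {r | Rep x r}.Infinite :=
  Set.infinite_of_injective_forall_mem (f := fun n => rp x (numN n))
    (fun m n h => T.numN_inj m n (T.eucl _ _ _ (T.rp_eq _) (by
      have h' : rp x (numN m) = rp x (numN n) := h
      rw [h']; exact T.rp_eq _))) fun _ => T.rep_rp _

theorem ind_el (k : ℕ) : ind x (el x k) = k := by
  unfold ind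
  rw [T.rp_of_rep (r := el x k) (Nat.nth_mem_of_infinite T.inf k)]
  exact @Nat.count_nth_of_infinite (Rep x) (fun _ => Classical.propDecidable _) T.inf k

theorem aM_ind (a b : ℕ) : @aM ℕ (A x) (ind x a) (ind x b) = ind x (addN a b) :=
  (T.ind_eq_iff _ _).2 (T.cadd _ _ _ _ (T.el_ind_eq a) (T.el_ind_eq b))

theorem mM_ind (a b : ℕ) : @mM ℕ (A x) (ind x a) (ind x b) = ind x (mulN a b) :=
  (T.ind_eq_iff _ _).2 (T.cmul _ _ _ _ (T.el_ind_eq a) (T.el_ind_eq b))

theorem lM_ind (a b : ℕ) : @lM ℕ (A x) (ind x a) (ind x b) ↔ x (ltI a b) = true :=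
  ⟨fun h => T.clt1 _ _ _ (T.el_ind_eq a) (T.clt2 _ _ _ (T.el_ind_eq b) h),
    fun h => T.clt1 _ _ _ (T.symm (T.el_ind_eq a)) (T.clt2 _ _ _ (T.symm (T.el_ind_eq b)) h)⟩

theorem ev_ind (l : List ℕ) (t : LA.Term ℕ) :
    @ev ℕ (A x) (l.map (ind x)) t = ind x (tv l (code t)) := by
  let _ := A x
  induction t using term_ind with
  | hv a => rw [tv_var, ev_var]; exact List.getD_map l 0 (ind x)
  | h0 => rw [tv_zero, ev_zero]; rfl
  | h1 => rw [tv_one, ev_one]; rfl
  | ha s t i j => rw [tv_add, ev_add, i, j, T.aM_ind]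
  | hm s t i j => rw [tv_mul, ev_mul, i, j, T.mM_ind]

theorem all_iff (p : ℕ) (l : List ℕ) :
    x (ix (4 * p + 4) l) = true ↔ ∀ a, x (ix p (l ++ [a])) = true :=
  ⟨fun h a => T.inst p a l h, fun h => T.wit p l (h _)⟩

theorem truth (p : Fm) : ∀ l : List ℕ, @Sat ℕ (A x) p (l.map (ind x)) ↔ x (ix p.enc l) = true := by
  let _ := A x
  induction p with
  | fal => intro l; simp [Fm.enc, T.fal]
  | eq s t => intro l; rw [sat_eq, T.ev_ind, T.ev_ind, T.ind_eq_iff, Fm.enc, T.eq]
  | lt s t => intro l; rw [sat_lt, T.ev_ind, T.ev_ind, T.lM_ind, Fm.enc, T.lt]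
  | imp p q i j => intro l; rw [sat_imp, i, j, Fm.enc, T.imp]
  | all p i =>
    intro l
    rw [sat_all, Fm.enc, T.all_iff]
    constructor
    · intro h a
      rw [← i, List.map_append]
      exact h _
    · intro h k
      have := (i _).2 (h (el x k))
      rwa [List.map_append, List.map_singleton, T.ind_el] at this

theorem truth0 (p : Fm) : @Sat ℕ (A x) p [] ↔ x (ix p.enc []) = true := T.truth p []

theorem qa : @QA ℕ (A x) :=
  (@sat_gam ℕ (A x)).1 fun p hp => (T.truth0 p).2 (T.gam _ (List.mem_map_of_mem hp))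

theorem least' (p : Fm) (l : List ℕ) :
    @Least ℕ (A x) (fun b => @Sat ℕ (A x) p (l.map (ind x) ++ [b])) (ind x (ix p.enc l)) := by
  let _ := A x
  have h1 : ∀ a, Sat p (l.map (ind x) ++ [ind x a]) ↔ x (ix p.enc (l ++ [a])) = true := by
    intro a
    rw [← T.truth, List.map_append, List.map_singleton]
  by_cases h : x (ix (4 * p.enc + 4) l) = true
  · exact Or.inr ⟨(T.truth (.all p) l).2 h, (T.ind_eq_iff _ _).2 (T.dflt _ _ h)⟩
  · refine Or.inl ⟨fun k => h (T.wit _ _ ((h1 _).1 k)), fun b hb => ?_⟩
    rw [← T.ind_el b] at hb ⊢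
    exact (h1 _).2 (T.least _ _ _ ((T.lM_ind _ _).1 hb))

theorem lnp : @LNP ℕ (A x) := by
  let _ := A x
  intro p l ⟨a, ha⟩
  have h := T.least' p (l.map (el x))
  have : (l.map (el x)).map (ind x) = l := by
    rw [List.map_map]
    exact List.map_id'' (fun k => T.ind_el k) l
  rw [this] at h
  rcases h with h | h
  · exact ⟨_, h⟩
  · exact absurd (h.1 a) ha

theorem num_eq (n : ℕ) : @num ℕ (A x) n = ind x (numN n) := by
  let _ := A x
  induction n with
  | zero => rfl
  | succ n ih => rw [num, ih, numN_succ, ← T.aM_ind]; rfl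

end Tab

/-- a formula for `Least` -/
theorem exists_least_fm (q : Fm) (l : List ℕ) (n : ℕ) (hl : ∀ a ∈ l, a < n) :
    ∃ W : Fm, ∀ (M : Type) [LA.Structure M] (j : ℕ → M) (v : M),
      Sat W ((List.range n).map j ++ [v]) ↔ Least (fun b => Sat q (l.map j ++ [b])) v := by
  let Q := q.ren (mv (l.length + 1) (n + 2) fun i => if i < l.length then l.getD i 0 else n + 1)
  refine ⟨Fm.or (Fm.and (Fm.all (.imp (.eq (Term.var (n + 1)) (Term.var n)) Q)).neg
    (Fm.all (.imp (.lt (Term.var (n + 1)) (Term.var n)) Q)))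
    (Fm.and (.all Q) (.eq (Term.var n) zeroT)), fun M _ j v => ?_⟩
  have hQ : ∀ b, Sat Q ((List.range n).map j ++ [v] ++ [b]) ↔ Sat q (l.map j ++ [b]) := by
    intro b
    have := sat_ren (fun i => if i < l.length then l.getD i 0 else n + 1) q
      ((List.range n).map j ++ [v] ++ [b]) (l.map j ++ [b]) (by
        intro i hi
        simp only [List.length_append, List.length_map, List.length_range,
          List.length_singleton] at hi ⊢
        split_ifs with h
        · have h1 : l.getD i 0 < n := hl _ (by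
            rw [List.getD_eq_getElem _ _ h]; exact List.getElem_mem h)
          refine ⟨by omega, ?_⟩
          rw [List.append_assoc, List.getD_append _ _ _ _ (by simpa using h1),
            List.getD_append _ _ _ _ (by simpa using h), getD_range_map _ _ h1,
            List.getD_eq_getElem _ _ h, List.getD_eq_getElem _ _ (by simpa using h),
            List.getElem_map]
        · refine ⟨by omega, ?_⟩
          rw [List.getD_append_right _ _ _ _ (by simp), List.getD_append_right _ _ _ _ (by simpa using h)]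
          have : i - l.length = 0 := by omega
          simp [this])
    simpa only [List.length_append, List.length_map, List.length_range, List.length_singleton]
      using this
  have e1 : ∀ b : M, ((List.range n).map j ++ [v] ++ [b]).getD (n + 1) zM = b := by
    intro b
    rw [List.getD_append_right _ _ _ _ (by simp)]; simp
  have e2 : ((List.range n).map j ++ [v]).getD n zM = v := by
    rw [List.getD_append_right _ _ _ _ (by simp)]; simp
  have e3 : ∀ b : M, ((List.range n).map j ++ [v] ++ [b]).getD n zM = v := by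
    intro b
    rw [List.getD_append _ _ _ _ (by simp), e2]
  simp only [sat_or, sat_and, sat_neg, sat_all, sat_imp, sat_eq, sat_lt, ev_var, ev_zero, hQ, e1, e2,
    e3, forall_eq, Least]

theorem same_type {M N : Type} [LA.Structure M] [LA.Structure N] (hM : QA M) (hN : QA N)
    (j : ℕ → M) (k : ℕ → N)
    (hj : ∀ (q : Fm) l, Least (fun b => Sat q (l.map j ++ [b])) (j (ix q.enc l)))
    (hk : ∀ (q : Fm) l, Least (fun b => Sat q (l.map k ++ [b])) (k (ix q.enc l)))
    (h0 : ∀ p : Fm, Sat (M := M) p [] ↔ Sat (M := N) p []) (p : Fm) (l : List ℕ) :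
    Sat p (l.map j) ↔ Sat p (l.map k) := by
  have key : ∀ n, ∀ p : Fm, Sat p ((List.range n).map j) ↔ Sat p ((List.range n).map k) := by
    intro n
    induction n with
    | zero => exact h0
    | succ n ih =>
      intro p
      obtain ⟨q, l, hq⟩ := ix_surj n
      obtain ⟨W, hW⟩ := exists_least_fm q l n fun a ha => hq ▸ lt_ix ha
      have h := ih (W.and p).ex
      simp only [sat_ex, sat_and, hW] at h
      have hj' := hj q l
      have hk' := hk q l
      rw [hq] at hj' hk'
      simp only [List.range_succ, List.map_append, List.map_singleton]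
      constructor
      · intro hp
        obtain ⟨v, h1, h2⟩ := h.1 ⟨_, hj', hp⟩
        rwa [h1.unique hN hk'] at h2
      · intro hp
        obtain ⟨v, h1, h2⟩ := h.2 ⟨_, hk', hp⟩
        rwa [h1.unique hM hj'] at h2
  have h2 : ∀ (M : Type) [LA.Structure M] (j : ℕ → M),
      Sat (p.ren (mv l.length (ix 0 l) fun i => l.getD i 0)) ((List.range (ix 0 l)).map j) ↔
      Sat p (l.map j) := by
    intro M _ j
    have := sat_ren (fun i => l.getD i 0) p ((List.range (ix 0 l)).map j) (l.map j) (by
      intro i hi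
      have h : i < l.length := by simpa using hi
      have h1 : l.getD i 0 < ix 0 l := lt_ix (by
        rw [List.getD_eq_getElem _ _ h]; exact List.getElem_mem h)
      refine ⟨by simpa using h1, ?_⟩
      rw [getD_range_map _ _ h1, List.getD_eq_getElem _ _ h, List.getD_eq_getElem _ _ hi,
        List.getElem_map])
    simpa only [List.length_map, List.length_range] using this
  rw [← h2 M j, ← h2 N k, key]

theorem Tab.inj {x y : CS} (T : Tab x) (T' : Tab y)
    (h : ∀ p : Fm, x (ix p.enc []) = true ↔ y (ix p.enc []) = true) : x = y := by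
  funext n
  obtain ⟨p, l, rfl⟩ := ix_surj n
  rw [Bool.eq_iff_iff, ← T.truth, ← T'.truth]
  exact @same_type ℕ ℕ (A x) (A y) T.qa T'.qa _ _ T.least' T'.least'
    (fun p => by rw [T.truth0, T'.truth0, h]) p l

end Pool.Agent.MinDeg
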