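import Pool.Agent.P.MP_f8f34d_lc.PAm

/-! The standard model satisfies `PA`; so the hypotheses of the main theorem hold for `U = ∅`. -/

namespace Pool.Agent.MinDeg

open FirstOrder FirstOrder.Language

theorem natS_model_PA : @Theory.Model LA ℕ natS PA := by
  let _ := natS
  refine (model_PA_iff ℕ).2 ⟨⟨?_, ?_, ?_, ?_, ?_, ?_, ?_, ?_, ?_, ?_⟩, ?_⟩
  · intro x; show x + 1 ≠ 0; omega
  · intro x y; show x + 1 = y + 1 → x = y; omega
  · intro x; show x + 0 = x; rfl
  · intro x y; show x + (y + 1) = x + y + 1; rfl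
  · intro x; show x * 0 = 0; rfl
  · intro x y; show x * (y + 1) = x * y + x; rfl
  · intro x; show ¬ x < 0; omega
  · intro x y; show x < y + 1 ↔ x < y ∨ x = y; omega
  · intro x; show x = 0 ∨ ∃ y, x = y + 1
    cases x with
    | zero => exact Or.inl rfl
    | succ y => exact Or.inr ⟨y, rfl⟩
  · intro x y; show x < y ∨ x = y ∨ y < x; omega
  · intro p l h
    classical
    exact ⟨Nat.find h, Nat.find_spec h, fun b hb => not_not.1 (Nat.find_min h hb)⟩

theorem sat_PA : (PA ∪ ∅ : LA.Theory).IsSatisfiable := by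
  let _ := natS
  have := natS_model_PA
  rw [Set.union_empty]
  exact Theory.Model.isSatisfiable ℕ

theorem ce_empty : CE ∅ :=
  (Partrec.none (α := ℕ) (σ := Unit)).of_eq fun m => by
    ext u; simp

end Pool.Agent.MinDeg
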