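import Pool.Agent.Lib.ComputableProp.Basic

/-! Uniform oracle functionals (copied from the files of MP_fa5791_lc) and the link with
`Nat.RecursiveIn`. -/

namespace Pool.Agent.MinDeg

open Pool.Agent.Lib.ComputableProp

/-- Oracle machines: the functionals `F` (oracle `o`, input `n`) generated uniformly in the
oracle by the same schemes as Mathlib's `Nat.RecursiveIn`. -/
inductive OracleRec : ((ℕ →. ℕ) → ℕ →. ℕ) → Prop
  | cZero : OracleRec fun _ _ => Part.some 0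
  | cSucc : OracleRec fun _ n => Part.some (n + 1)
  | cLeft : OracleRec fun _ n => Part.some (Nat.unpair n).1
  | cRight : OracleRec fun _ n => Part.some (Nat.unpair n).2
  | cOracle : OracleRec fun o n => o n
  | cPair {F G : (ℕ →. ℕ) → ℕ →. ℕ} : OracleRec F → OracleRec G →
      OracleRec fun o n => (F o n).bind fun a => (G o n).map fun b => Nat.pair a b
  | cComp {F G : (ℕ →. ℕ) → ℕ →. ℕ} : OracleRec F → OracleRec G →
      OracleRec fun o n => (G o n).bind (F o)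
  | cPrec {F G : (ℕ →. ℕ) → ℕ →. ℕ} : OracleRec F → OracleRec G →
      OracleRec fun o p => Nat.rec (F o (Nat.unpair p).1)
        (fun y IH => IH.bind fun i => G o (Nat.pair (Nat.unpair p).1 (Nat.pair y i)))
        (Nat.unpair p).2
  | cRfind {F : (ℕ →. ℕ) → ℕ →. ℕ} : OracleRec F →
      OracleRec fun o a => Nat.rfind fun n => (F o (Nat.pair a n)).map fun m => decide (m = 0)

theorem OracleRec.mono {F : (ℕ →. ℕ) → ℕ →. ℕ} (hF : OracleRec F) {o o' : ℕ →. ℕ}
    (h : ∀ n w, w ∈ o n → w ∈ o' n) : ∀ k w, w ∈ F o k → w ∈ F o' k := by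
  induction hF with
  | cZero | cSucc | cLeft | cRight => exact fun _ _ h => h
  | cOracle => exact h
  | cPair _ _ ihF ihG =>
    intro k w hw
    obtain ⟨a, ha, hb0⟩ := Part.mem_bind_iff.1 hw
    obtain ⟨b, hb, rfl⟩ := (Part.mem_map_iff _).1 hb0
    exact Part.mem_bind_iff.2 ⟨a, ihF _ _ ha, (Part.mem_map_iff _).2 ⟨b, ihG _ _ hb, rfl⟩⟩
  | cComp _ _ ihF ihG =>
    intro k w hw
    obtain ⟨a, ha, hb⟩ := Part.mem_bind_iff.1 hw
    exact Part.mem_bind_iff.2 ⟨a, ihG _ _ ha, ihF _ _ hb⟩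
  | cPrec _ _ ihF ihG =>
    intro k
    beta_reduce
    generalize (Nat.unpair k).2 = m
    induction m with
    | zero => exact fun w hw => ihF _ _ hw
    | succ m ih =>
      intro w hw
      obtain ⟨a, ha, hb⟩ := Part.mem_bind_iff.1 hw
      exact Part.mem_bind_iff.2 ⟨a, ih _ ha, ihG _ _ hb⟩
  | cRfind _ ihF =>
    intro k w hw
    obtain ⟨h1, h2⟩ := Nat.mem_rfind.1 hw
    obtain ⟨a, ha, h1⟩ := (Part.mem_map_iff _).1 h1
    refine Nat.mem_rfind.2 ⟨(Part.mem_map_iff _).2 ⟨a, ihF _ _ ha, h1⟩, fun {m} hm => ?_⟩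
    obtain ⟨b, hb, h3⟩ := (Part.mem_map_iff _).1 (h2 hm)
    exact (Part.mem_map_iff _).2 ⟨b, ihF _ _ hb, h3⟩

/-- restriction of an oracle to an initial segment -/
def restr (o : ℕ →. ℕ) (L : ℕ) : ℕ →. ℕ := fun n => if n < L then o n else Part.none

theorem restr_mono (o : ℕ →. ℕ) {L L' : ℕ} (h : L ≤ L') :
    ∀ n w, w ∈ restr o L n → w ∈ restr o L' n := by
  intro n w hw
  unfold restr at hw ⊢
  split_ifs at hw with h1
  · rw [if_pos (by omega)]; exact hw
  · exact absurd hw (Part.notMem_none _)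

theorem OracleRec.compact {F : (ℕ →. ℕ) → ℕ →. ℕ} (hF : OracleRec F) (o : ℕ →. ℕ) :
    ∀ k w, w ∈ F o k → ∃ L, w ∈ F (restr o L) k := by
  induction hF with
  | cZero | cSucc | cLeft | cRight => exact fun _ _ h => ⟨0, h⟩
  | cOracle => exact fun k w hw => ⟨k + 1, by simpa [restr] using hw⟩
  | cPair hF hG ihF ihG =>
    intro k w hw
    obtain ⟨a, ha, hb0⟩ := Part.mem_bind_iff.1 hw
    obtain ⟨b, hb, rfl⟩ := (Part.mem_map_iff _).1 hb0
    obtain ⟨L1, h1⟩ := ihF _ _ ha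
    obtain ⟨L2, h2⟩ := ihG _ _ hb
    exact ⟨max L1 L2, Part.mem_bind_iff.2 ⟨a, hF.mono (restr_mono o (le_max_left _ _)) _ _ h1,
      (Part.mem_map_iff _).2 ⟨b, hG.mono (restr_mono o (le_max_right _ _)) _ _ h2, rfl⟩⟩⟩
  | cComp hF hG ihF ihG =>
    intro k w hw
    obtain ⟨a, ha, hb⟩ := Part.mem_bind_iff.1 hw
    obtain ⟨L1, h1⟩ := ihG _ _ ha
    obtain ⟨L2, h2⟩ := ihF _ _ hb
    exact ⟨max L1 L2, Part.mem_bind_iff.2 ⟨a, hG.mono (restr_mono o (le_max_left _ _)) _ _ h1,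
      hF.mono (restr_mono o (le_max_right _ _)) _ _ h2⟩⟩
  | @cPrec F G hF hG ihF ihG =>
    intro k
    have hm := fun L L' (h : L ≤ L') (m : ℕ) => (OracleRec.cPrec hF hG).mono (restr_mono o h)
      (Nat.pair (Nat.unpair k).1 m)
    simp only [Nat.unpair_pair] at hm
    beta_reduce
    generalize (Nat.unpair k).2 = m
    induction m with
    | zero => exact fun w hw => ihF _ _ hw
    | succ m ih =>
      intro w hw
      obtain ⟨a, ha, hb⟩ := Part.mem_bind_iff.1 hw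
      obtain ⟨L1, h1⟩ := ih _ ha
      obtain ⟨L2, h2⟩ := ihG _ _ hb
      exact ⟨max L1 L2, Part.mem_bind_iff.2 ⟨a, hm _ _ (le_max_left _ _) _ _ h1,
        hG.mono (restr_mono o (le_max_right _ _)) _ _ h2⟩⟩
  | @cRfind F hF ihF =>
    intro k w hw
    obtain ⟨h1, h2⟩ := Nat.mem_rfind.1 hw
    obtain ⟨a, ha, h1⟩ := (Part.mem_map_iff _).1 h1
    obtain ⟨L1, h3⟩ := ihF _ _ ha
    have key : ∀ n ≤ w, ∃ L, ∀ m < n, ∃ b ∈ F (restr o L) (Nat.pair k m),
        decide (b = 0) = false := by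
      intro n
      induction n with
      | zero => intro _; exact ⟨0, by simp⟩
      | succ n ih =>
        intro hn
        obtain ⟨L, hL⟩ := ih (by omega)
        obtain ⟨b, hb, h4⟩ := (Part.mem_map_iff _).1 (h2 (show n < w by omega))
        obtain ⟨L', h5⟩ := ihF _ _ hb
        refine ⟨max L L', fun m hm => ?_⟩
        rcases (by omega : m < n ∨ m = n) with h | rfl
        · obtain ⟨b', hb', h6⟩ := hL m h
          exact ⟨b', hF.mono (restr_mono o (le_max_left _ _)) _ _ hb', h6⟩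
        · exact ⟨b, hF.mono (restr_mono o (le_max_right _ _)) _ _ h5, h4⟩
    obtain ⟨L2, h4⟩ := key w le_rfl
    refine ⟨max L1 L2, Nat.mem_rfind.2 ⟨(Part.mem_map_iff _).2
      ⟨a, hF.mono (restr_mono o (le_max_left _ _)) _ _ h3, h1⟩, fun {m} hm => ?_⟩⟩
    obtain ⟨b, hb, h5⟩ := h4 m hm
    exact (Part.mem_map_iff _).2 ⟨b, hF.mono (restr_mono o (le_max_right _ _)) _ _ hb, h5⟩

/-- the finite oracle given by a list -/
def orc (σ : List ℕ) : ℕ →. ℕ := fun n => Part.ofOption σ[n]?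

theorem OracleRec.partrec {F : (ℕ →. ℕ) → ℕ →. ℕ} (hF : OracleRec F) :
    Partrec (fun z : List ℕ × ℕ => F (orc z.1) z.2) := by
  induction hF with
  | cZero => exact (Computable.const 0).partrec
  | cSucc => exact Computable.partrec (f := fun z : List ℕ × ℕ => z.2 + 1) (by fun_prop)
  | cLeft => exact Computable.partrec (f := fun z : List ℕ × ℕ => (Nat.unpair z.2).1) (by fun_prop)
  | cRight => exact Computable.partrec (f := fun z : List ℕ × ℕ => (Nat.unpair z.2).2) (by fun_prop)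
  | cOracle => exact Computable.ofOption (f := fun z : List ℕ × ℕ => z.1[z.2]?) (by fun_prop)
  | cPair _ _ ihF ihG =>
    refine ihF.bind ?_
    refine Partrec.map (ihG.comp Computable.fst) ?_
    unfold Computable₂
    fun_prop
  | cComp _ _ ihF ihG =>
    refine ihG.bind ?_
    exact ihF.comp (g := fun z : (List ℕ × ℕ) × ℕ => (z.1.1, z.2)) (by fun_prop)
  | @cPrec F G _ _ ihF ihG =>
    refine Partrec.nat_rec (f := fun z : List ℕ × ℕ => (Nat.unpair z.2).2)
      (g := fun z => F (orc z.1) (Nat.unpair z.2).1)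
      (h := fun z p => G (orc z.1) (Nat.pair (Nat.unpair z.2).1 (Nat.pair p.1 p.2)))
      (by fun_prop) ?_ ?_
    · exact ihF.comp (g := fun z : List ℕ × ℕ => (z.1, (Nat.unpair z.2).1)) (by fun_prop)
    · exact ihG.comp (g := fun z : (List ℕ × ℕ) × ℕ × ℕ =>
        (z.1.1, Nat.pair (Nat.unpair z.1.2).1 (Nat.pair z.2.1 z.2.2))) (by fun_prop)
  | @cRfind F _ ihF =>
    refine Partrec.rfind (p := fun (z : List ℕ × ℕ) n =>
      (F (orc z.1) (Nat.pair z.2 n)).map fun m => decide (m = 0)) ?_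
    refine Partrec.map (ihF.comp (g := fun z : (List ℕ × ℕ) × ℕ => (z.1.1, Nat.pair z.1.2 z.2))
      (by fun_prop)) ?_
    have : Computable (fun z : ((List ℕ × ℕ) × ℕ) × ℕ => eqb z.2 0) := by fun_prop
    exact this

theorem exists_oracleRec {o f : ℕ →. ℕ} (h : Nat.RecursiveIn {o} f) :
    ∃ F, OracleRec F ∧ F o = f := by
  induction h with
  | zero => exact ⟨_, .cZero, rfl⟩
  | succ => exact ⟨_, .cSucc, rfl⟩
  | left => exact ⟨_, .cLeft, rfl⟩
  | right => exact ⟨_, .cRight, rfl⟩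
  | oracle g hg =>
    obtain rfl : g = o := hg
    exact ⟨_, .cOracle, rfl⟩
  | pair _ _ ih1 ih2 =>
    obtain ⟨F, hF, rfl⟩ := ih1
    obtain ⟨G, hG, rfl⟩ := ih2
    refine ⟨_, .cPair hF hG, ?_⟩
    funext n
    ext w
    simp [Seq.seq, Part.mem_bind_iff]
  | comp _ _ ih1 ih2 =>
    obtain ⟨F, hF, rfl⟩ := ih1
    obtain ⟨G, hG, rfl⟩ := ih2
    exact ⟨_, .cComp hF hG, rfl⟩
  | prec _ _ ih1 ih2 =>
    obtain ⟨F, hF, rfl⟩ := ih1
    obtain ⟨G, hG, rfl⟩ := ih2
    exact ⟨_, .cPrec hF hG, rfl⟩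
  | rfind _ ih =>
    obtain ⟨F, hF, rfl⟩ := ih
    exact ⟨_, .cRfind hF, rfl⟩

end Pool.Agent.MinDeg
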