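import Pool.Agent.P.MP_f8f34d_lc.Orc

/-! Effectively open relations on Cantor space. -/

namespace Pool.Agent.MinDeg

open Pool.Agent.Lib.ComputableProp

abbrev CS : Type := ℕ → Bool

variable {α β : Type} [Primcodable α] [Primcodable β]

def pre (x : CS) (n : ℕ) : List Bool := (List.range n).map x

@[simp] theorem pre_length (x : CS) (n : ℕ) : (pre x n).length = n := by simp [pre]

theorem pre_getD (x : CS) {n i : ℕ} (h : i < n) : (pre x n).getD i false = x i := by
  simp [pre, List.getD_eq_getElem?_getD, h]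

theorem pre_congr {x y : CS} {n : ℕ} (h : ∀ i < n, x i = y i) : pre x n = pre y n := by
  unfold pre
  exact List.map_congr_left fun i hi => h i (List.mem_range.1 hi)

/-- uniformly effectively open -/
def Sig (P : CS → α → Prop) : Prop :=
  ∃ R : List Bool → α → Prop, RE (fun z : List Bool × α => R z.1 z.2) ∧
    (∀ x n m a, n ≤ m → R (pre x n) a → R (pre x m) a) ∧ ∀ x a, P x a ↔ ∃ n, R (pre x n) a

namespace Sig

theorem of_iff {P Q : CS → α → Prop} (h : Sig P) (H : ∀ x a, P x a ↔ Q x a) : Sig Q :=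
  (funext fun x => funext fun a => propext (H x a) : P = Q) ▸ h

theorem of_re {Q : α → Prop} (h : RE Q) : Sig (fun _ a => Q a) :=
  ⟨fun _ a => Q a, h.comp Computable.snd, fun _ _ _ _ _ h => h, fun _ _ => by simp⟩

theorem comp {P : CS → β → Prop} {f : α → β} (h : Sig P) (hf : Computable f) :
    Sig (fun x a => P x (f a)) := by
  obtain ⟨R, h1, h2, h3⟩ := h
  exact ⟨fun σ a => R σ (f a), h1.comp (f := fun z : List Bool × α => (z.1, f z.2)) (by fun_prop),
    fun x n m a => h2 x n m (f a), fun x a => h3 x (f a)⟩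

theorem bit {f : α → ℕ} {g : α → Bool} (hf : Computable f) (hg : Computable g) :
    Sig (fun x a => x (f a) = g a) := by
  refine ⟨fun σ a => f a < σ.length ∧ σ.getD (f a) false = g a,
    (RE.lt (by fun_prop) (by fun_prop)).and (RE.eq (by fun_prop) (by fun_prop)), ?_, ?_⟩
  · rintro x n m a hnm ⟨h1, h2⟩
    rw [pre_length] at h1
    rw [pre_getD x h1] at h2
    exact ⟨by rw [pre_length]; omega, by rw [pre_getD x (by omega)]; exact h2⟩
  · intro x a
    constructor
    · intro h
      exact ⟨f a + 1, by simp, by rw [pre_getD x (by omega)]; exact h⟩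
    · rintro ⟨n, h1, h2⟩
      rw [pre_length] at h1
      rwa [pre_getD x h1] at h2

theorem and {P Q : CS → α → Prop} (hP : Sig P) (hQ : Sig Q) : Sig (fun x a => P x a ∧ Q x a) := by
  obtain ⟨R, h1, h2, h3⟩ := hP
  obtain ⟨R', k1, k2, k3⟩ := hQ
  refine ⟨fun σ a => R σ a ∧ R' σ a, h1.and k1,
    fun x n m a h hh => ⟨h2 x n m a h hh.1, k2 x n m a h hh.2⟩, fun x a => ?_⟩
  show P x a ∧ Q x a ↔ _
  rw [h3, k3]
  constructor
  · rintro ⟨⟨n, hn⟩, ⟨m, hm⟩⟩
    exact ⟨max n m, h2 x _ _ a (le_max_left _ _) hn, k2 x _ _ a (le_max_right _ _) hm⟩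
  · rintro ⟨n, hn, hm⟩
    exact ⟨⟨n, hn⟩, ⟨n, hm⟩⟩

theorem or {P Q : CS → α → Prop} (hP : Sig P) (hQ : Sig Q) : Sig (fun x a => P x a ∨ Q x a) := by
  obtain ⟨R, h1, h2, h3⟩ := hP
  obtain ⟨R', k1, k2, k3⟩ := hQ
  refine ⟨fun σ a => R σ a ∨ R' σ a, h1.or k1,
    fun x n m a h hh => hh.imp (h2 x n m a h) (k2 x n m a h), fun x a => ?_⟩
  show P x a ∨ Q x a ↔ _
  rw [h3, k3, exists_or]

theorem ex {P : CS → α → β → Prop} (h : Sig (fun x (z : α × β) => P x z.1 z.2)) :
    Sig (fun x a => ∃ b, P x a b) := by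
  obtain ⟨R, h1, h2, h3⟩ := h
  refine ⟨fun σ a => ∃ b, R σ (a, b), RE.ex (R := fun (z : List Bool × α) b => R z.1 (z.2, b))
    (h1.comp (f := fun z : (List Bool × α) × β => (z.1.1, (z.1.2, z.2))) (by fun_prop)),
    fun x n m a h ⟨b, hb⟩ => ⟨b, h2 x n m _ h hb⟩, fun x a => ?_⟩
  constructor
  · rintro ⟨b, hb⟩
    obtain ⟨n, hn⟩ := (h3 x (a, b)).1 hb
    exact ⟨n, b, hn⟩
  · rintro ⟨n, b, hn⟩
    exact ⟨b, (h3 x (a, b)).2 ⟨n, hn⟩⟩

theorem forall_lt {P : CS → α → ℕ → Prop} {l : α → ℕ} (hl : Computable l)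
    (h : Sig (fun x (z : α × ℕ) => P x z.1 z.2)) : Sig (fun x a => ∀ b < l a, P x a b) := by
  obtain ⟨R, h1, h2, h3⟩ := h
  refine ⟨fun σ a => ∀ b < l a, R σ (a, b),
    RE.forall_lt (R := fun (z : List Bool × α) b => R z.1 (z.2, b)) (by fun_prop)
    (h1.comp (f := fun z : (List Bool × α) × ℕ => (z.1.1, (z.1.2, z.2))) (by fun_prop)),
    fun x n m a h hh b hb => h2 x n m _ h (hh b hb), fun x a => ?_⟩
  constructor
  · intro hh
    have key : ∀ k, k ≤ l a → ∃ n, ∀ b < k, R (pre x n) (a, b) := by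
      intro k
      induction k with
      | zero => intro _; exact ⟨0, by simp⟩
      | succ k ih =>
        intro hk
        obtain ⟨n, hn⟩ := ih (by omega)
        obtain ⟨m, hm⟩ := (h3 x (a, k)).1 (hh k (by omega))
        refine ⟨max n m, fun b hb => ?_⟩
        rcases (by omega : b < k ∨ b = k) with h | rfl
        · exact h2 x _ _ _ (le_max_left _ _) (hn b h)
        · exact h2 x _ _ _ (le_max_right _ _) hm
    exact key _ le_rfl
  · rintro ⟨n, hn⟩ b hb
    exact (h3 x (a, b)).2 ⟨n, hn b hb⟩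

theorem reindex {P : CS → α → Prop} (h : Sig P) {g : ℕ → ℕ} (hg : Computable g) :
    Sig (fun z a => P (fun i => z (g i)) a) := by
  obtain ⟨R, h1, -, h3⟩ := h
  have : Sig (fun (z : CS) (a : α) => ∃ σ : List Bool,
      (∀ i < σ.length, z (g i) = σ.getD i false) ∧ R σ a) := by
    refine ex (and (forall_lt (l := fun w : α × List Bool => w.2.length) (by fun_prop)
      (bit (f := fun w : (α × List Bool) × ℕ => g w.2) (by fun_prop) (by fun_prop)))
      (of_re (h1.comp (f := fun w : α × List Bool => (w.2, w.1)) (by fun_prop))))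
  refine this.of_iff fun z a => ?_
  rw [h3]
  constructor
  · rintro ⟨σ, hσ, hR⟩
    refine ⟨σ.length, ?_⟩
    have : pre (fun i => z (g i)) σ.length = σ := by
      apply List.ext_getElem (by simp)
      intro i hi hi'
      have := hσ i hi'
      simp only [pre, List.getElem_map, List.getElem_range]
      rw [this, List.getD_eq_getElem?_getD, List.getElem?_eq_getElem hi', Option.getD_some]
    rwa [this]
  · rintro ⟨n, hn⟩
    refine ⟨_, fun i hi => ?_, hn⟩
    rw [pre_length] at hi
    rw [pre_getD _ hi]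

theorem isOpen {P : CS → α → Prop} (h : Sig P) (a : α) : IsOpen {x | P x a} := by
  obtain ⟨R, -, -, h3⟩ := h
  rw [isOpen_iff_forall_mem_open]
  intro x hx
  obtain ⟨n, hn⟩ := (h3 x a).1 hx
  refine ⟨{y | ∀ i ∈ Finset.range n, y i = x i}, fun y hy => (h3 y a).2 ⟨n, ?_⟩, ?_, fun _ _ => rfl⟩
  · rwa [pre_congr (fun i hi => hy i (Finset.mem_range.2 hi))]
  · have : {y : CS | ∀ i ∈ Finset.range n, y i = x i} = ⋂ i ∈ Finset.range n, {y | y i = x i} := by
      ext y; simp
    rw [this]
    refine isOpen_biInter_finset fun i _ => ?_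
    exact (isOpen_discrete ({x i} : Set Bool)).preimage (continuous_apply (A := fun _ : ℕ => Bool) i)

end Sig

def tb (M i : ℕ) : Bool := eqb (M / 2 ^ i % 2) 1

@[fun_prop] theorem c_tb {f g : α → ℕ} (hf : Computable f) (hg : Computable g) :
    Computable (fun a => tb (f a) (g a)) := by
  unfold tb; fun_prop

theorem tb_eq (M i : ℕ) : tb M i = M.testBit i := by
  rw [Nat.testBit_eq_decide_div_mod_eq]; rfl

theorem exists_tb (z : CS) (N : ℕ) : ∃ M < 2 ^ N, ∀ i < N, tb M i = z i := by
  refine ⟨Nat.ofBits (fun i : Fin N => z i), Nat.ofBits_lt_two_pow _, fun i hi => ?_⟩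
  rw [tb_eq, Nat.testBit_ofBits_lt _ _ hi]

/-- universal quantification over a fibre (compactness) -/
theorem Sig.fibre {P : CS → α → Prop} (h : Sig P) {g : ℕ → ℕ} (hg : Computable g)
    (hm : Function.Injective g) : Sig (fun x a => ∀ z : CS, (∀ i, z (g i) = x i) → P z a) := by
  obtain ⟨R, h1, h2, h3⟩ := h
  have : Sig (fun (x : CS) (a : α) => ∃ N : ℕ, ∀ M < 2 ^ N,
      (∃ i : ℕ, g i < N ∧ x i = !(tb M (g i))) ∨ R ((List.range N).map (tb M)) a) := by
    refine Sig.ex (Sig.forall_lt (l := fun w : α × ℕ => 2 ^ w.2) (by fun_prop) (Sig.or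
      (Sig.ex (Sig.and (Sig.of_re (RE.lt (by fun_prop) (by fun_prop)))
        (Sig.bit (f := fun w : ((α × ℕ) × ℕ) × ℕ => w.2) (by fun_prop) (by fun_prop))))
      (Sig.of_re (h1.comp (f := fun w : (α × ℕ) × ℕ => ((List.range w.1.2).map (tb w.2), w.1.1))
        (by fun_prop)))))
  refine this.of_iff fun x a => ?_
  constructor
  · rintro ⟨N, hN⟩ z hz
    obtain ⟨M, hM, hz'⟩ := exists_tb z N
    rcases hN M hM with ⟨i, hi, hx⟩ | hR
    · rw [hz' _ hi, hz i] at hx
      simp at hx
    · refine (h3 z a).2 ⟨N, ?_⟩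
      rwa [← pre_congr hz']
  · intro hz
    have hK : IsCompact {z : CS | ∀ i, z (g i) = x i} := by
      refine IsClosed.isCompact ?_
      rw [Set.ofPred_forall]
      exact isClosed_iInter fun i => isClosed_eq (continuous_apply _) continuous_const
    have hU : ∀ N, IsOpen {z : CS | R (pre z N) a} := by
      intro N
      rw [isOpen_iff_forall_mem_open]
      intro y hy
      refine ⟨{w | ∀ i ∈ Finset.range N, w i = y i}, fun w hw => ?_, ?_, fun _ _ => rfl⟩
      · show R (pre w N) a
        rwa [pre_congr (fun i hi => hw i (Finset.mem_range.2 hi))]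
      · have : {w : CS | ∀ i ∈ Finset.range N, w i = y i} =
            ⋂ i ∈ Finset.range N, {w | w i = y i} := by ext w; simp
        rw [this]
        refine isOpen_biInter_finset fun i _ => ?_
        exact (isOpen_discrete ({y i} : Set Bool)).preimage (continuous_apply (A := fun _ : ℕ => Bool) i)
    obtain ⟨N, hN⟩ := hK.elim_directed_cover _ hU
      (fun z hz' => Set.mem_iUnion.2 ((h3 z a).1 (hz z hz')))
      (directed_of_isDirected_le fun n m hnm z hz' => h2 z n m a hnm hz')
    refine ⟨N, fun M _ => ?_⟩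
    by_cases hc : ∃ i : ℕ, g i < N ∧ x i = !(tb M (g i))
    · exact Or.inl hc
    · right
      classical
      let z : CS := fun j => if h : ∃ i, g i = j then x h.choose else tb M j
      have hzg : ∀ i, z (g i) = x i := by
        intro i
        have h : ∃ i', g i' = g i := ⟨i, rfl⟩
        simp only [z, dif_pos h]
        rw [hm h.choose_spec]
      have hR : R (pre z N) a := hN hzg
      have : pre z N = pre (tb M) N := by
        refine pre_congr fun j hj => ?_
        by_cases h : ∃ i, g i = j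
        · obtain ⟨i, rfl⟩ := h
          rw [hzg]
          by_contra hne
          exact hc ⟨i, hj, by revert hne; cases x i <;> cases tb M (g i) <;> simp⟩
        · simp only [z, dif_neg h]
      rw [this] at hR
      exact hR

/-- a point of Cantor space as an oracle -/
def hat (x : CS) : ℕ →. ℕ := fun n => Part.some (cond (x n) 1 0)

theorem re_of_partrec {f : α →. β} (hf : Partrec f) : RE (fun z : α × β => z.2 ∈ f z.1) := by
  classical
  obtain ⟨c, hc⟩ := Nat.Partrec.Code.exists_code.1 hf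
  refine ⟨fun w => eqb (Nat.Partrec.Code.evaln w.2 c (Encodable.encode w.1.1))
    (some (Encodable.encode w.1.2)), by fun_prop, fun z => ?_⟩
  simp only [eqb_iff]
  have : z.2 ∈ f z.1 ↔ Encodable.encode z.2 ∈ c.eval (Encodable.encode z.1) := by
    rw [hc]
    simp [Part.mem_map_iff]
  rw [this, Nat.Partrec.Code.evaln_complete]
  rfl

theorem OracleRec.sig {F : (ℕ →. ℕ) → ℕ →. ℕ} (hF : OracleRec F) :
    Sig (fun x (a : ℕ × ℕ) => a.2 ∈ F (hat x) a.1) := by
  have hle : ∀ (x : CS) n k w, w ∈ orc ((pre x n).map fun b => cond b 1 0) k ↔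
      k < n ∧ w ∈ hat x k := by
    intro x n k w
    simp only [orc, Part.mem_ofOption, Option.mem_def, hat, Part.mem_some_iff, pre,
      List.getElem?_map]
    by_cases h : k < n
    · simp [h, eq_comm]
    · simp [h]
  refine ⟨fun σ a => a.2 ∈ F (orc (σ.map fun b => cond b 1 0)) a.1,
    (re_of_partrec hF.partrec).comp
      (f := fun z : List Bool × ℕ × ℕ => ((z.1.map fun b => cond b 1 0, z.2.1), z.2.2))
      (by fun_prop), ?_, ?_⟩
  · intro x n m a hnm
    refine hF.mono (fun k w hw => ?_) _ _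
    rw [hle] at hw ⊢
    exact ⟨by omega, hw.2⟩
  · intro x a
    constructor
    · intro h
      obtain ⟨L, hL⟩ := hF.compact _ _ _ h
      refine ⟨L, hF.mono (fun k w hw => ?_) _ _ hL⟩
      rw [hle]
      unfold restr at hw
      split_ifs at hw with h1
      · exact ⟨h1, hw⟩
      · exact absurd hw (Part.notMem_none _)
    · rintro ⟨n, hn⟩
      exact hF.mono (fun k w hw => ((hle _ _ _ _).1 hw).2) _ _ hn

/-- total functions recursive in an oracle -/
def TR (o : ℕ →. ℕ) (f : ℕ → ℕ) : Prop := Nat.RecursiveIn {o} (fun n => Part.some (f n))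

namespace TR
variable {o : ℕ →. ℕ}

theorem of_computable {f : ℕ → ℕ} (hf : Computable f) : TR o f :=
  Nat.Partrec.recursiveIn (Partrec.nat_iff.1 hf.partrec)

theorem comp {f g : ℕ → ℕ} (hf : TR o f) (hg : TR o g) : TR o (fun n => f (g n)) :=
  (Nat.RecursiveIn.comp hf hg).of_eq fun n => by simp

theorem pair {f g : ℕ → ℕ} (hf : TR o f) (hg : TR o g) : TR o (fun n => Nat.pair (f n) (g n)) :=
  (Nat.RecursiveIn.pair hf hg).of_eq fun n => by simp [Seq.seq]

theorem iter {a : ℕ} {h : ℕ → ℕ} (hh : TR o h) :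
    TR o (fun n => Nat.rec a (fun y i => h (Nat.pair y i)) n) := by
  have h1 : TR o (fun w => h w.unpair.2) := hh.comp (of_computable (by fun_prop))
  have h2 := Nat.RecursiveIn.prec (of_computable (o := o) (Computable.const a)) h1
  have h3 := Nat.RecursiveIn.comp h2 (of_computable (o := o) (f := fun n => Nat.pair 0 n) (by fun_prop))
  refine h3.of_eq fun n => ?_
  simp only [Part.bind_eq_bind, Part.bind_some, Nat.unpair_pair]
  induction n with
  | zero => rfl
  | succ n ih => simp only [ih, Part.bind_some]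

theorem find {g : ℕ → ℕ} (hg : TR o g) (h : ∀ a, ∃ n, g (Nat.pair a n) = 0) :
    TR o (fun a => Nat.find (h a)) := by
  refine (Nat.RecursiveIn.rfind hg).of_eq_tot fun a => ?_
  refine Nat.mem_rfind.2 ⟨?_, fun {m} hm => ?_⟩
  · simpa using Nat.find_spec (h a)
  · simpa using Nat.find_min (h a) hm

end TR

theorem tr_pre (y : CS) : TR (hat y) (fun n => Encodable.encode (pre y n)) := by
  have h0 : TR (hat y) (fun n => cond (y n) 1 0) := Nat.RecursiveIn.oracle _ rfl
  have h1 : TR (hat y) (fun w => Nat.pair w (cond (y w.unpair.1) 1 0)) :=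
    TR.pair (TR.of_computable Computable.id) (h0.comp (TR.of_computable (by fun_prop)))
  have hc : Computable (fun v : ℕ => Encodable.encode
      (Denumerable.ofNat (List ℕ) v.unpair.1.unpair.2 ++ [v.unpair.2])) :=
    c_encode (c_append (c_ofNat _ (by fun_prop)) (by fun_prop))
  have h2 := ((TR.of_computable hc).comp h1).iter (a := Encodable.encode ([] : List ℕ))
  have hd : Computable (fun v : ℕ => Encodable.encode
      ((Denumerable.ofNat (List ℕ) v).map fun b => eqb b 1)) :=
    c_encode (c_map (c_ofNat _ Computable.id) (by fun_prop))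
  have h3 := (TR.of_computable hd).comp h2
  have key : ∀ n, (Nat.rec (Encodable.encode ([] : List ℕ)) (fun k i => Encodable.encode
      (Denumerable.ofNat (List ℕ) (Nat.pair (Nat.pair k i)
        (cond (y (Nat.pair k i).unpair.1) 1 0)).unpair.1.unpair.2 ++
        [(Nat.pair (Nat.pair k i) (cond (y (Nat.pair k i).unpair.1) 1 0)).unpair.2])) n : ℕ) =
      Encodable.encode ((List.range n).map fun i => cond (y i) 1 0) := by
    intro n
    induction n with
    | zero => rfl
    | succ n ih =>
      simp only [Nat.unpair_pair] at ih ⊢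
      rw [ih, Denumerable.ofNat_encode, List.range_succ, List.map_append]
      rfl
  refine Nat.RecursiveIn.of_eq h3 fun n => ?_
  simp only [key, Denumerable.ofNat_encode, List.map_map, pre]
  congr 3
  funext i
  cases h : y i <;> simp [h, eqb]

/-- a function with effectively open graph is recursive in the oracle -/
theorem Sig.tr {S : CS → ℕ × ℕ → Prop} (hS : Sig S) {y : CS} {f : ℕ → ℕ}
    (h : ∀ k v, S y (k, v) ↔ v = f k) : TR (hat y) f := by
  obtain ⟨R, ⟨t, ht, h1⟩, -, h3⟩ := hS
  have hH : Computable (fun v : ℕ => cond (t (((Encodable.decode (α := List Bool) v.unpair.2).getD [],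
      (v.unpair.1.unpair.1, v.unpair.1.unpair.2.unpair.2.unpair.1)),
      v.unpair.1.unpair.2.unpair.2.unpair.2)) 0 1) := by
    have : Computable (fun v : ℕ => (Encodable.decode (α := List Bool) v.unpair.2).getD []) :=
      Computable.option_getD (by fun_prop) (Computable.const _)
    fun_prop
  have h4 := (TR.of_computable hH).comp (TR.pair (TR.of_computable Computable.id)
    ((tr_pre y).comp (TR.of_computable (f := fun w : ℕ => w.unpair.2.unpair.1) (by fun_prop))))
  simp only [Nat.unpair_pair, Encodable.encodek, Option.getD_some, id] at h4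
  have hex : ∀ a, ∃ n, (fun w : ℕ => cond (t ((pre y w.unpair.2.unpair.1,
      (w.unpair.1, w.unpair.2.unpair.2.unpair.1)), w.unpair.2.unpair.2.unpair.2)) 0 1)
      (Nat.pair a n) = 0 := by
    intro a
    obtain ⟨n, hn⟩ := (h3 y (a, f a)).1 ((h a _).2 rfl)
    obtain ⟨s, hs⟩ := (h1 (pre y n, (a, f a))).1 hn
    exact ⟨Nat.pair n (Nat.pair (f a) s), by simp [hs]⟩
  have h5 := (TR.of_computable (f := fun w : ℕ => w.unpair.2.unpair.1) (by fun_prop)).comp
    (h4.find hex)
  refine Nat.RecursiveIn.of_eq h5 fun a => ?_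
  have hs := Nat.find_spec (hex a)
  show Part.some ((Nat.find (hex a)).unpair.2.unpair.1) = Part.some (f a)
  congr 1
  generalize Nat.find (hex a) = w at hs ⊢
  simp only [Nat.unpair_pair] at hs
  refine (h a _).1 ((h3 y _).2 ⟨w.unpair.1, (h1 (pre y w.unpair.1, (a, w.unpair.2.unpair.1))).2
    ⟨w.unpair.2.unpair.2, ?_⟩⟩)
  revert hs
  cases t _ <;> simp

theorem countable_sig : Set.Countable {P : CS → α → Prop | Sig P} := by
  classical
  have : {P : CS → α → Prop | Sig P} ⊆ Set.range (fun c : Nat.Partrec.Code => fun x a =>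
      ∃ n s : ℕ, 1 ∈ c.eval (Encodable.encode ((pre x n, a), s))) := by
    rintro P ⟨R, ⟨t, ht, h1⟩, -, h3⟩
    obtain ⟨c, hc⟩ := Nat.Partrec.Code.exists_code.1 ht.partrec
    refine ⟨c, funext fun x => funext fun a => propext ?_⟩
    rw [h3]
    refine exists_congr fun n => ?_
    refine Iff.trans (exists_congr fun s => ?_) (h1 (pre x n, a)).symm
    rw [hc]
    simp only [Encodable.encodek, Part.coe_some, Part.bind_some, Part.mem_map_iff]
    cases h : t ((pre x n, a), s) <;> simp [h]
  exact (Set.countable_range _).mono this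

end Pool.Agent.MinDeg
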