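import Pool.Agent.P.MP_f8f34d_lc.Fm
import Pool.Agent.P.MP_f8f34d_lc.Sig

/-! Henkin truth tables with least-counterexample names. -/

namespace Pool.Agent.MinDeg

open FirstOrder FirstOrder.Language Pool.Agent.Lib.ComputableProp

/-- course-of-values recursion -/
def srec {β : Type} (step : List β → β) (n : ℕ) : β :=
  step ((List.range n).foldl (fun L _ => L ++ [step L]) [])

theorem srec_eq {β : Type} (step : List β → β) (n : ℕ) :
    srec step n = step ((List.range n).map (srec step)) := by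
  have key : ∀ n, (List.range n).foldl (fun L _ => L ++ [step L]) [] =
      (List.range n).map (srec step) := by
    intro n
    induction n with
    | zero => rfl
    | succ n ih =>
      rw [List.range_succ, List.foldl_append, List.map_append, ← ih]
      rfl
  rw [srec, key]

theorem getD_range_map {β : Type} (f : ℕ → β) (d : β) {n i : ℕ} (h : i < n) :
    ((List.range n).map f).getD i d = f i := by
  simp [List.getD_eq_getElem?_getD, h]

def ix (p : ℕ) (l : List ℕ) : ℕ := Nat.pair p (Encodable.encode l)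

@[fun_prop] theorem c_ix {α : Type} [Primcodable α] {f : α → ℕ} {g : α → List ℕ}
    (hf : Computable f) (hg : Computable g) : Computable (fun a => ix (f a) (g a)) := by
  unfold ix; fun_prop

theorem lt_ix {p a : ℕ} {l : List ℕ} (h : a ∈ l) : a < ix p l := by
  have key : ∀ l : List ℕ, a ∈ l → a < Encodable.encode l := by
    intro l
    induction l with
    | nil => simp
    | cons b l ih =>
      intro h
      rw [Encodable.encode_list_cons]
      rcases List.mem_cons.1 h with rfl | h
      · exact Nat.lt_succ_of_le (Nat.left_le_pair _ _)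
      · exact (ih h).trans (Nat.lt_succ_of_le (Nat.right_le_pair _ _))
  exact (key l h).trans_le (Nat.right_le_pair _ _)

theorem ix_surj (n : ℕ) : ∃ (p : Fm) (l : List ℕ), ix p.enc l = n := by
  obtain ⟨p, hp⟩ := enc_surj n.unpair.1
  exact ⟨p, Denumerable.ofNat (List ℕ) n.unpair.2, by
    rw [ix, hp, Denumerable.encode_ofNat, Nat.pair_unpair]⟩

def fE : Fm := .eq (Term.var 0) (Term.var 1)
def fL : Fm := .lt (Term.var 0) (Term.var 1)
def fA : Fm := (Fm.eq (Term.var 2) (addT (Term.var 0) (Term.var 1))).neg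
def fM : Fm := (Fm.eq (Term.var 2) (mulT (Term.var 0) (Term.var 1))).neg
def fO : Fm := (Fm.eq (Term.var 0) oneT).neg

def eqI (a b : ℕ) : ℕ := ix fE.enc [a, b]
def ltI (a b : ℕ) : ℕ := ix fL.enc [a, b]
def addN (a b : ℕ) : ℕ := ix fA.enc [a, b]
def mulN (a b : ℕ) : ℕ := ix fM.enc [a, b]
def oneN : ℕ := ix fO.enc []

section
variable {α : Type} [Primcodable α] {f g : α → ℕ}
@[fun_prop] theorem c_eqI (hf : Computable f) (hg : Computable g) :
    Computable (fun a => eqI (f a) (g a)) := by unfold eqI; fun_prop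
@[fun_prop] theorem c_ltI (hf : Computable f) (hg : Computable g) :
    Computable (fun a => ltI (f a) (g a)) := by unfold ltI; fun_prop
@[fun_prop] theorem c_addN (hf : Computable f) (hg : Computable g) :
    Computable (fun a => addN (f a) (g a)) := by unfold addN; fun_prop
@[fun_prop] theorem c_mulN (hf : Computable f) (hg : Computable g) :
    Computable (fun a => mulN (f a) (g a)) := by unfold mulN; fun_prop
end

def tvS (l L : List ℕ) : ℕ :=
  cond (eqb L.length 0) 0 (cond (eqb L.length 1) oneN (cond (eqb (L.length % 3) 2)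
    (l.getD (L.length / 3) 0) (cond (eqb (L.length % 3) 0)
    (addN (L.getD (L.length / 3 - 1).unpair.1 0) (L.getD (L.length / 3 - 1).unpair.2 0))
    (mulN (L.getD (L.length / 3 - 1).unpair.1 0) (L.getD (L.length / 3 - 1).unpair.2 0)))))

/-- the name of the value of the term with code `c` at the names `l` -/
def tv (l : List ℕ) (c : ℕ) : ℕ := srec (tvS l) c

@[fun_prop] theorem c_tv {α : Type} [Primcodable α] {f : α → List ℕ} {g : α → ℕ}
    (hf : Computable f) (hg : Computable g) : Computable (fun a => tv (f a) (g a)) := by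
  have hs : Computable (fun w : List ℕ × List ℕ => tvS w.1 w.2) := by unfold tvS; fun_prop
  have h2 : Computable (fun w : List ℕ × ℕ =>
      (List.range w.2).foldl (fun L _ => L ++ [tvS w.1 L]) []) :=
    c_foldl (h := fun (w : List ℕ × ℕ) (L : List ℕ) (_ : ℕ) => L ++ [tvS w.1 L]) (by fun_prop)
      (by fun_prop) (c_append (by fun_prop) (c_cons (hs.comp
        (g := fun x : (List ℕ × ℕ) × List ℕ × ℕ => (x.1.1, x.2.1)) (by fun_prop)) (by fun_prop)))
  have h3 : Computable (fun w : List ℕ × ℕ => tv w.1 w.2) :=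
    (hs.comp (Computable.fst.pair h2)).of_eq fun _ => rfl
  exact (h3.comp (hf.pair hg)).of_eq fun _ => rfl

theorem tv_var (l : List ℕ) (k : ℕ) : tv l (code (Term.var k)) = l.getD k 0 := by
  rw [tv, srec_eq, code_var]
  have h1 : (3 * k + 2) % 3 = 2 := by omega
  have h2 : (3 * k + 2) / 3 = k := by omega
  simp [tvS, eqb, h1, h2]

theorem tv_zero (l : List ℕ) : tv l (code zeroT) = 0 := by
  rw [tv, srec_eq, code_zero]; simp [tvS, eqb]

theorem tv_one (l : List ℕ) : tv l (code oneT) = oneN := by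
  rw [tv, srec_eq, code_one]; simp [tvS, eqb]

theorem tv_add (l : List ℕ) (s t : LA.Term ℕ) :
    tv l (code (addT s t)) = addN (tv l (code s)) (tv l (code t)) := by
  rw [tv, srec_eq, code_add]
  have h1 : (3 * Nat.pair (code s) (code t) + 3) % 3 = 0 := by omega
  have h2 : (3 * Nat.pair (code s) (code t) + 3) / 3 - 1 = Nat.pair (code s) (code t) := by omega
  have h3 := Nat.left_le_pair (code s) (code t)
  have h4 := Nat.right_le_pair (code s) (code t)
  simp only [tvS, List.length_map, List.length_range, h1, h2, Nat.unpair_pair]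
  rw [getD_range_map _ _ (by omega), getD_range_map _ _ (by omega)]
  simp [eqb, tv]

theorem tv_mul (l : List ℕ) (s t : LA.Term ℕ) :
    tv l (code (mulT s t)) = mulN (tv l (code s)) (tv l (code t)) := by
  rw [tv, srec_eq, code_mul]
  have h1 : (3 * Nat.pair (code s) (code t) + 4) % 3 = 1 := by omega
  have h2 : (3 * Nat.pair (code s) (code t) + 4) / 3 - 1 = Nat.pair (code s) (code t) := by omega
  have h3 := Nat.left_le_pair (code s) (code t)
  have h4 := Nat.right_le_pair (code s) (code t)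
  simp only [tvS, List.length_map, List.length_range, h1, h2, Nat.unpair_pair]
  rw [getD_range_map _ _ (by omega), getD_range_map _ _ (by omega)]
  simp [eqb, tv]

def numN (n : ℕ) : ℕ := (List.range n).foldl (fun a _ => addN a oneN) 0

theorem c_numN : Computable numN :=
  c_foldl (f := fun n : ℕ => List.range n) (g := fun _ => 0) (h := fun _ a _ => addN a oneN)
    (by fun_prop) (by fun_prop) (by fun_prop)

theorem numN_succ (n : ℕ) : numN (n + 1) = addN (numN n) oneN := by
  simp [numN, List.range_succ]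

def g1 : Fm := .all (Fm.eq (addT (Term.var 0) oneT) zeroT).neg
def g2 : Fm := .all (.all (.imp (.eq (addT (Term.var 0) oneT) (addT (Term.var 1) oneT))
  (.eq (Term.var 0) (Term.var 1))))

/-- the axioms of `QA` as sentences -/
def Gam : List Fm :=
  [ g1, g2,
    .all (.eq (addT (Term.var 0) zeroT) (Term.var 0)),
    .all (.all (.eq (addT (Term.var 0) (addT (Term.var 1) oneT))
      (addT (addT (Term.var 0) (Term.var 1)) oneT))),
    .all (.eq (mulT (Term.var 0) zeroT) zeroT),
    .all (.all (.eq (mulT (Term.var 0) (addT (Term.var 1) oneT))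
      (addT (mulT (Term.var 0) (Term.var 1)) (Term.var 0)))),
    .all (Fm.lt (Term.var 0) zeroT).neg,
    .all (.all (.imp (.lt (Term.var 0) (addT (Term.var 1) oneT))
      (Fm.or (.lt (Term.var 0) (Term.var 1)) (.eq (Term.var 0) (Term.var 1))))),
    .all (.all (.imp (Fm.or (.lt (Term.var 0) (Term.var 1)) (.eq (Term.var 0) (Term.var 1)))
      (.lt (Term.var 0) (addT (Term.var 1) oneT)))),
    .all (Fm.or (.eq (Term.var 0) zeroT) (Fm.eq (Term.var 0) (addT (Term.var 1) oneT)).ex),
    .all (.all (Fm.or (.lt (Term.var 0) (Term.var 1))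
      (Fm.or (.eq (Term.var 0) (Term.var 1)) (.lt (Term.var 1) (Term.var 0))))) ]

theorem sat_gam (M : Type) [LA.Structure M] : (∀ p ∈ Gam, Sat (M := M) p []) ↔ QA M := by
  simp only [Gam, g1, g2, List.forall_mem_cons, sat_all, sat_neg, sat_eq, sat_lt, sat_imp, sat_or,
    sat_ex, ev_add, ev_mul, ev_var, ev_zero, ev_one, List.nil_append, List.cons_append,
    List.getD_cons_zero, List.getD_cons_succ, List.not_mem_nil, IsEmpty.forall_iff, implies_true,
    and_true]
  exact ⟨fun ⟨h1, h2, h3, h4, h5, h6, h7, h8, h8', h9, h10⟩ =>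
      ⟨h1, h2, h3, h4, h5, h6, h7, fun x y => ⟨h8 x y, h8' x y⟩, h9, h10⟩,
    fun h => ⟨h.a1, h.a2, h.a3, h.a4, h.a5, h.a6, h.a7, fun x y => (h.a8 x y).1,
      fun x y => (h.a8 x y).2, h.pred, h.tri⟩⟩

/-- truth tables -/
structure Tab (x : CS) : Prop where
  fal : ∀ l, x (ix 0 l) = false
  eq : ∀ s t l, x (ix (4 * Nat.pair s t + 1) l) = x (eqI (tv l s) (tv l t))
  lt : ∀ s t l, x (ix (4 * Nat.pair s t + 2) l) = x (ltI (tv l s) (tv l t))
  imp : ∀ p q l, x (ix (4 * Nat.pair p q + 3) l) = true ↔ (x (ix p l) = true → x (ix q l) = true)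
  inst : ∀ p a l, x (ix (4 * p + 4) l) = true → x (ix p (l ++ [a])) = true
  wit : ∀ p l, x (ix p (l ++ [ix p l])) = true → x (ix (4 * p + 4) l) = true
  least : ∀ p a l, x (ltI a (ix p l)) = true → x (ix p (l ++ [a])) = true
  dflt : ∀ p l, x (ix (4 * p + 4) l) = true → x (eqI (ix p l) 0) = true
  refl : ∀ a, x (eqI a a) = true
  eucl : ∀ a b c, x (eqI a b) = true → x (eqI a c) = true → x (eqI b c) = true
  cadd : ∀ a b c d, x (eqI a b) = true → x (eqI c d) = true → x (eqI (addN a c) (addN b d)) = true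
  cmul : ∀ a b c d, x (eqI a b) = true → x (eqI c d) = true → x (eqI (mulN a c) (mulN b d)) = true
  clt1 : ∀ a b c, x (eqI a b) = true → x (ltI a c) = true → x (ltI b c) = true
  clt2 : ∀ a b c, x (eqI a b) = true → x (ltI c a) = true → x (ltI c b) = true
  gam : ∀ n, n ∈ Gam.map Fm.enc → x (ix n []) = true

/-- effectively closed -/
def PiC (P : CS → Prop) : Prop := Sig (fun x (_ : Unit) => ¬ P x)

theorem PiC.and {P Q : CS → Prop} (hP : PiC P) (hQ : PiC Q) : PiC (fun x => P x ∧ Q x) :=
  (Sig.or hP hQ).of_iff fun _ _ => not_and_or.symm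

theorem PiC.of_iff {P Q : CS → Prop} (hP : PiC P) (h : ∀ x, P x ↔ Q x) : PiC Q :=
  Sig.of_iff hP fun x _ => not_congr (h x)

theorem sig3 {W : Type} [Primcodable W] {f g h : W → ℕ} (F : Bool → Bool → Bool → Prop)
    (hf : Computable f) (hg : Computable g) (hh : Computable h) :
    Sig (fun x w => F (x (f w)) (x (g w)) (x (h w))) := by
  classical
  have hF : RE (fun b : Bool × Bool × Bool => F b.1 b.2.1 b.2.2) :=
    (RE.of_bool (Primrec.dom_finite (fun b : Bool × Bool × Bool =>
      decide (F b.1 b.2.1 b.2.2))).to_comp).of_iff fun b => by simp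
  have : Sig (fun x w => ∃ b : Bool × Bool × Bool, x (f w) = b.1 ∧ x (g w) = b.2.1 ∧
      x (h w) = b.2.2 ∧ F b.1 b.2.1 b.2.2) :=
    Sig.ex ((Sig.bit (f := fun z : W × Bool × Bool × Bool => f z.1) (by fun_prop) (by fun_prop)).and
      ((Sig.bit (f := fun z : W × Bool × Bool × Bool => g z.1) (by fun_prop) (by fun_prop)).and
      ((Sig.bit (f := fun z : W × Bool × Bool × Bool => h z.1) (by fun_prop) (by fun_prop)).and
      (Sig.of_re (hF.comp Computable.snd)))))
  refine this.of_iff fun x w => ⟨?_, fun h => ⟨(_, _, _), rfl, rfl, rfl, h⟩⟩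
  rintro ⟨b, h1, h2, h3, h4⟩
  rwa [h1, h2, h3]

theorem rule (W : Type) [Primcodable W] (f g h : W → ℕ) (F : Bool → Bool → Bool → Prop)
    (hf : Computable f) (hg : Computable g) (hh : Computable h) :
    PiC (fun x => ∀ w, F (x (f w)) (x (g w)) (x (h w))) :=
  (Sig.ex (P := fun x (_ : Unit) w => ¬ F (x (f w)) (x (g w)) (x (h w)))
    ((sig3 (fun a b c => ¬ F a b c) hf hg hh).comp Computable.snd)).of_iff
    fun _ _ => not_forall.symm

theorem pi_ax {V : ℕ → Prop} (hV : RE V) : PiC (fun x => ∀ n, V n → x (ix n []) = true) :=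
  (Sig.ex (P := fun x (_ : Unit) n => V n ∧ x (ix n []) = false)
    ((Sig.of_re (hV.comp Computable.snd)).and
      (Sig.bit (f := fun z : Unit × ℕ => ix z.2 []) (by fun_prop) (by fun_prop)))).of_iff
    fun _ _ => by simp

theorem pi_tab : PiC Tab := by
  have h1 := rule (List ℕ) (fun l => ix 0 l) (fun _ => 0) (fun _ => 0) (fun a _ _ => a = false)
    (by fun_prop) (by fun_prop) (by fun_prop)
  have h2 := rule (ℕ × ℕ × List ℕ) (fun w => ix (4 * Nat.pair w.1 w.2.1 + 1) w.2.2)
    (fun w => eqI (tv w.2.2 w.1) (tv w.2.2 w.2.1)) (fun _ => 0) (fun a b _ => a = b)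
    (by fun_prop) (by fun_prop) (by fun_prop)
  have h3 := rule (ℕ × ℕ × List ℕ) (fun w => ix (4 * Nat.pair w.1 w.2.1 + 2) w.2.2)
    (fun w => ltI (tv w.2.2 w.1) (tv w.2.2 w.2.1)) (fun _ => 0) (fun a b _ => a = b)
    (by fun_prop) (by fun_prop) (by fun_prop)
  have h4 := rule (ℕ × ℕ × List ℕ) (fun w => ix (4 * Nat.pair w.1 w.2.1 + 3) w.2.2)
    (fun w => ix w.1 w.2.2) (fun w => ix w.2.1 w.2.2)
    (fun a b c => a = true ↔ (b = true → c = true))
    (by fun_prop) (by fun_prop) (by fun_prop)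
  have h5 := rule (ℕ × ℕ × List ℕ) (fun w => ix (4 * w.1 + 4) w.2.2)
    (fun w => ix w.1 (w.2.2 ++ [w.2.1])) (fun _ => 0) (fun a b _ => a = true → b = true)
    (by fun_prop) (by fun_prop) (by fun_prop)
  have h6 := rule (ℕ × List ℕ) (fun w => ix w.1 (w.2 ++ [ix w.1 w.2]))
    (fun w => ix (4 * w.1 + 4) w.2) (fun _ => 0) (fun a b _ => a = true → b = true)
    (by fun_prop) (by fun_prop) (by fun_prop)
  have h7 := rule (ℕ × ℕ × List ℕ) (fun w => ltI w.2.1 (ix w.1 w.2.2))
    (fun w => ix w.1 (w.2.2 ++ [w.2.1])) (fun _ => 0) (fun a b _ => a = true → b = true)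
    (by fun_prop) (by fun_prop) (by fun_prop)
  have h8 := rule (ℕ × List ℕ) (fun w => ix (4 * w.1 + 4) w.2)
    (fun w => eqI (ix w.1 w.2) 0) (fun _ => 0) (fun a b _ => a = true → b = true)
    (by fun_prop) (by fun_prop) (by fun_prop)
  have h9 := rule ℕ (fun a => eqI a a) (fun _ => 0) (fun _ => 0) (fun a _ _ => a = true)
    (by fun_prop) (by fun_prop) (by fun_prop)
  have h10 := rule (ℕ × ℕ × ℕ) (fun w => eqI w.1 w.2.1) (fun w => eqI w.1 w.2.2)
    (fun w => eqI w.2.1 w.2.2) (fun a b c => a = true → b = true → c = true)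
    (by fun_prop) (by fun_prop) (by fun_prop)
  have h11 := rule ((ℕ × ℕ) × ℕ × ℕ) (fun w => eqI w.1.1 w.1.2) (fun w => eqI w.2.1 w.2.2)
    (fun w => eqI (addN w.1.1 w.2.1) (addN w.1.2 w.2.2))
    (fun a b c => a = true → b = true → c = true)
    (by fun_prop) (by fun_prop) (by fun_prop)
  have h12 := rule ((ℕ × ℕ) × ℕ × ℕ) (fun w => eqI w.1.1 w.1.2) (fun w => eqI w.2.1 w.2.2)
    (fun w => eqI (mulN w.1.1 w.2.1) (mulN w.1.2 w.2.2))
    (fun a b c => a = true → b = true → c = true)
    (by fun_prop) (by fun_prop) (by fun_prop)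
  have h13 := rule (ℕ × ℕ × ℕ) (fun w => eqI w.1 w.2.1) (fun w => ltI w.1 w.2.2)
    (fun w => ltI w.2.1 w.2.2) (fun a b c => a = true → b = true → c = true)
    (by fun_prop) (by fun_prop) (by fun_prop)
  have h14 := rule (ℕ × ℕ × ℕ) (fun w => eqI w.1 w.2.1) (fun w => ltI w.2.2 w.1)
    (fun w => ltI w.2.2 w.2.1) (fun a b c => a = true → b = true → c = true)
    (by fun_prop) (by fun_prop) (by fun_prop)
  have h15 := pi_ax (V := fun n => n ∈ Gam.map Fm.enc)
    (RE.mem (f := fun n : ℕ => n) (l := fun _ => Gam.map Fm.enc) (by fun_prop) (by fun_prop))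
  refine (h1.and (h2.and (h3.and (h4.and (h5.and (h6.and (h7.and (h8.and (h9.and (h10.and
    (h11.and (h12.and (h13.and (h14.and h15)))))))))))))).of_iff fun x => ⟨?_, fun t => ?_⟩
  · rintro ⟨k1, k2, k3, k4, k5, k6, k7, k8, k9, k10, k11, k12, k13, k14, k15⟩
    exact ⟨k1, fun s t l => k2 (s, t, l), fun s t l => k3 (s, t, l), fun s t l => k4 (s, t, l),
      fun s t l => k5 (s, t, l), fun p l => k6 (p, l), fun s t l => k7 (s, t, l),
      fun p l => k8 (p, l), k9, fun a b c => k10 (a, b, c), fun a b c d => k11 ((a, b), c, d),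
      fun a b c d => k12 ((a, b), c, d), fun a b c => k13 (a, b, c), fun a b c => k14 (a, b, c),
      k15⟩
  · exact ⟨t.fal, fun _ => t.eq _ _ _, fun _ => t.lt _ _ _, fun _ => t.imp _ _ _,
      fun _ => t.inst _ _ _, fun _ => t.wit _ _, fun _ => t.least _ _ _, fun _ => t.dflt _ _,
      t.refl, fun _ => t.eucl _ _ _, fun _ => t.cadd _ _ _ _, fun _ => t.cmul _ _ _ _,
      fun _ => t.clt1 _ _ _, fun _ => t.clt2 _ _ _, t.gam⟩

end Pool.Agent.MinDeg
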