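import Pool.Agent.P.MP_f8f34d_lc.N.Fin
import Pool.Agent.P.MP_f8f34d_lc.a.Sol

/-! No Borel condition on a completion of Peano arithmetic decides whether the degrees of its
models have a minimal element. -/

open FirstOrder FirstOrder.Language Pool.Agent.MinDeg

theorem Pool.Agent.MinDeg.variant_noBorelCriterion :
    ¬ ∃ B : Set (ℕ → Bool), @MeasurableSet (ℕ → Bool) (borel (ℕ → Bool)) B ∧
      ∀ T : LA.Theory, T.IsMaximal → PA ⊆ T → T ≠ TA →
        ∀ χ : ℕ → Bool, (∀ n, χ n = true ↔ ∃ σ ∈ T, gn σ = n) →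
          (χ ∈ B ↔ ∃ d ∈ degrees T, ∀ e ∈ degrees T, ¬ e < d) :=
  n_main solovay
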